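import Pool.Agent.W_MP_be22fd_co_nlog.Defs

set_option autoImplicit false

namespace Pool.Agent.W_MP_be22fd_co_nlog

/-- slopes of the lines -/
def tv (h i : ℕ) : ℤ := if i < h then -((i : ℤ) + 1) else (i : ℤ) + 1

/-- tent function -/
noncomputable def tent (z : ℝ) : ℝ := max 0 (1 / 4 - |z|)

/-- sum of the bumps on the curve of slope `t` -/
noncomputable def bump (h : ℕ) (g : ℕ → ℕ → ℝ) (t : ℤ) (x : ℝ) : ℝ :=
  ∑ a ∈ Finset.range (h + 1), ∑ b ∈ Finset.range (h + 1),
    if 1 ≤ a ∧ a < b ∧ (a : ℤ) + b = t then g a b * tent (x - (a ^ 2 + a * b + b ^ 2)) else 0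

/-- amplitude -/
noncomputable def amp (h : ℕ) : ℝ := 1 / (16 * ((h : ℝ) + 1) ^ 2)

/-- the curves -/
noncomputable def fam (n h : ℕ) (g : ℕ → ℕ → ℝ) (i : Fin n) (x : ℝ) : ℝ :=
  (tv h i : ℝ) * x - (tv h i : ℝ) ^ 3 + amp h * bump h g (tv h i) x

lemma amp_pos (h : ℕ) : 0 < amp h := by unfold amp; positivity

lemma amp_mul (h : ℕ) : amp h * ((h : ℝ) + 1) ^ 2 = 1 / 16 := by
  unfold amp
  field_simp

lemma tent_nonneg (z : ℝ) : 0 ≤ tent z := le_max_left _ _

lemma tent_le (z : ℝ) : tent z ≤ 1 / 4 := by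
  unfold tent
  apply max_le
  · norm_num
  · have := abs_nonneg z; linarith

lemma tent_lip (y z : ℝ) : |tent y - tent z| ≤ |y - z| := by
  unfold tent
  have h1 := abs_max_sub_max_le_max 0 (1 / 4 - |y|) 0 (1 / 4 - |z|)
  refine h1.trans ?_
  apply max_le
  · simp
  · have h2 : 1 / 4 - |y| - (1 / 4 - |z|) = |z| - |y| := by ring
    rw [h2, abs_sub_comm y z]
    exact abs_abs_sub_abs_le z y

lemma tent_zero : tent 0 = 1 / 4 := by
  unfold tent
  norm_num

lemma tent_eq_zero {z : ℝ} (hz : 1 / 4 ≤ |z|) : tent z = 0 := by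
  unfold tent
  apply max_eq_left
  linarith

lemma continuous_tent : Continuous tent := by
  unfold tent
  fun_prop

section
variable {h : ℕ} {g : ℕ → ℕ → ℝ}

lemma bump_le (hg : ∀ a b, |g a b| ≤ 1) (t : ℤ) (x : ℝ) :
    |bump h g t x| ≤ ((h : ℝ) + 1) ^ 2 / 4 := by
  unfold bump
  refine (Finset.abs_sum_le_sum_abs _ _).trans ?_
  calc ∑ a ∈ Finset.range (h + 1), |∑ b ∈ Finset.range (h + 1),
      (if 1 ≤ a ∧ a < b ∧ (a : ℤ) + b = t then g a b * tent (x - (a ^ 2 + a * b + b ^ 2)) else 0)|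
      ≤ ∑ a ∈ Finset.range (h + 1), ∑ b ∈ Finset.range (h + 1), (1 / 4 : ℝ) := by
        apply Finset.sum_le_sum
        intro a _
        refine (Finset.abs_sum_le_sum_abs _ _).trans ?_
        apply Finset.sum_le_sum
        intro b _
        split_ifs
        · rw [abs_mul]
          have h1 := hg a b
          have h2 : |tent (x - (a ^ 2 + a * b + b ^ 2))| ≤ 1 / 4 := by
            rw [abs_of_nonneg (tent_nonneg _)]
            exact tent_le _
          calc |g a b| * |tent (x - (a ^ 2 + a * b + b ^ 2))| ≤ 1 * (1 / 4) :=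
                mul_le_mul h1 h2 (abs_nonneg _) (by norm_num)
            _ = 1 / 4 := by ring
        · simp
    _ = ((h : ℝ) + 1) ^ 2 / 4 := by
        simp only [Finset.sum_const, Finset.card_range, nsmul_eq_mul]
        push_cast
        ring

lemma bump_lip (hg : ∀ a b, |g a b| ≤ 1) (t : ℤ) (x y : ℝ) :
    |bump h g t x - bump h g t y| ≤ ((h : ℝ) + 1) ^ 2 * |x - y| := by
  unfold bump
  rw [← Finset.sum_sub_distrib]
  refine (Finset.abs_sum_le_sum_abs _ _).trans ?_
  have h0 : ((h : ℝ) + 1) ^ 2 * |x - y| =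
      ∑ a ∈ Finset.range (h + 1), ∑ b ∈ Finset.range (h + 1), |x - y| := by
    simp only [Finset.sum_const, Finset.card_range, nsmul_eq_mul]
    push_cast
    ring
  rw [h0]
  apply Finset.sum_le_sum
  intro a _
  rw [← Finset.sum_sub_distrib]
  refine (Finset.abs_sum_le_sum_abs _ _).trans ?_
  apply Finset.sum_le_sum
  intro b _
  split_ifs
  · rw [← mul_sub, abs_mul]
    have h1 := hg a b
    have h2 := tent_lip (x - (a ^ 2 + a * b + b ^ 2)) (y - (a ^ 2 + a * b + b ^ 2))
    have h3 : x - (a ^ 2 + a * b + b ^ 2) - (y - (a ^ 2 + a * b + b ^ 2) : ℝ) = x - y := by ring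
    rw [h3] at h2
    calc |g a b| * |tent (x - (a ^ 2 + a * b + b ^ 2)) - tent (y - (a ^ 2 + a * b + b ^ 2))|
        ≤ 1 * |x - y| := mul_le_mul h1 h2 (abs_nonneg _) (by norm_num)
      _ = |x - y| := one_mul _
  · simp

lemma continuous_bump (t : ℤ) : Continuous (bump h g t) := by
  unfold bump
  apply continuous_finsetSum
  intro a _
  apply continuous_finsetSum
  intro b _
  split_ifs
  · exact continuous_const.mul (continuous_tent.comp (by fun_prop))
  · exact continuous_const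

lemma bump_nonpos {t : ℤ} (ht : t ≤ 0) (x : ℝ) : bump h g t x = 0 := by
  unfold bump
  apply Finset.sum_eq_zero
  intro a _
  apply Finset.sum_eq_zero
  intro b _
  rw [if_neg]
  rintro ⟨h1, h2, h3⟩
  omega

lemma bump_at {a b : ℕ} (ha : 1 ≤ a) (hab : a < b) (hb : b ≤ h) :
    bump h g ((a : ℤ) + b) ((a : ℝ) ^ 2 + a * b + b ^ 2) = g a b / 4 := by
  unfold bump
  rw [Finset.sum_eq_single a]
  · rw [Finset.sum_eq_single b]
    · rw [if_pos ⟨ha, hab, rfl⟩, sub_self, tent_zero]
      ring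
    · intro b' _ hb'
      rw [if_neg]
      rintro ⟨_, _, h3⟩
      apply hb'
      omega
    · intro hb'
      exact absurd (Finset.mem_range.mpr (by omega)) hb'
  · intro a' _ ha'
    apply Finset.sum_eq_zero
    intro b' _
    split_ifs with hcond
    · obtain ⟨h1, h2, h3⟩ := hcond
      have hne : ((a : ℤ) ^ 2 + a * b + b ^ 2) ≠ ((a' : ℤ) ^ 2 + a' * b' + b' ^ 2) := by
        intro heq
        have e1 : (b' : ℤ) = a + b - a' := by linarith
        have e2 : ((a : ℤ) - a') * (a' - b) = 0 := by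
          rw [e1] at heq
          nlinarith
        rcases mul_eq_zero.mp e2 with e3 | e3
        · apply ha'; omega
        · omega
      have habs : (1 : ℝ) ≤ |((a : ℝ) ^ 2 + a * b + b ^ 2) - ((a' : ℝ) ^ 2 + a' * b' + b' ^ 2)| := by
        have h4 : (1 : ℤ) ≤ |((a : ℤ) ^ 2 + a * b + b ^ 2) - ((a' : ℤ) ^ 2 + a' * b' + b' ^ 2)| :=
          Int.one_le_abs (sub_ne_zero.mpr hne)
        exact_mod_cast h4
      rw [tent_eq_zero (by linarith), mul_zero]
    · rfl
  · intro ha'
    exact absurd (Finset.mem_range.mpr (by omega)) ha'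

lemma tv_injective (h : ℕ) : Function.Injective (tv h) := by
  intro i j hij
  unfold tv at hij
  split_ifs at hij <;> omega

lemma amp_bump_le (hg : ∀ a b, |g a b| ≤ 1) (t : ℤ) (x : ℝ) :
    |amp h * bump h g t x| ≤ 1 / 64 := by
  rw [abs_mul, abs_of_pos (amp_pos h)]
  calc amp h * |bump h g t x| ≤ amp h * (((h : ℝ) + 1) ^ 2 / 4) :=
        mul_le_mul_of_nonneg_left (bump_le hg t x) (amp_pos h).le
    _ = (amp h * ((h : ℝ) + 1) ^ 2) / 4 := by ring
    _ = 1 / 64 := by rw [amp_mul]; norm_num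

lemma amp_bump_lip (hg : ∀ a b, |g a b| ≤ 1) (t : ℤ) (x y : ℝ) :
    |amp h * bump h g t x - amp h * bump h g t y| ≤ |x - y| / 16 := by
  rw [← mul_sub, abs_mul, abs_of_pos (amp_pos h)]
  calc amp h * |bump h g t x - bump h g t y| ≤ amp h * (((h : ℝ) + 1) ^ 2 * |x - y|) :=
        mul_le_mul_of_nonneg_left (bump_lip hg t x y) (amp_pos h).le
    _ = (amp h * ((h : ℝ) + 1) ^ 2) * |x - y| := by ring
    _ = |x - y| / 16 := by rw [amp_mul]; ring

end

lemma crossing_of_slope {D : ℝ → ℝ} (hc : Continuous D)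
    (hs : ∀ x y, y < x → (x - y) / 2 ≤ D x - D y) :
    ∃ x, D x = 0 ∧ (∀ y < x, D y < 0) ∧ ∀ y > x, 0 < D y := by
  set L : ℝ := 2 * |D 0| + 1 with hL
  have hLpos : 0 < L := by positivity
  have h1 : 0 < D L := by
    have := hs L 0 hLpos
    have h2 := neg_abs_le (D 0)
    have h3 : (L - 0) / 2 = |D 0| + 1 / 2 := by rw [hL]; ring
    linarith
  have h2 : D (-L) < 0 := by
    have := hs 0 (-L) (by linarith)
    have h2 := le_abs_self (D 0)
    have h3 : (0 - -L) / 2 = |D 0| + 1 / 2 := by rw [hL]; ring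
    linarith
  obtain ⟨x, _, hx⟩ := intermediate_value_Icc (show -L ≤ L by linarith) hc.continuousOn
    (⟨h2.le, h1.le⟩ : (0 : ℝ) ∈ Set.Icc (D (-L)) (D L))
  refine ⟨x, hx, ?_, ?_⟩
  · intro y hy
    have := hs x y hy
    linarith
  · intro y hy
    have := hs y x hy
    linarith

theorem fam_arrangement (n h : ℕ) (g : ℕ → ℕ → ℝ) (hg : ∀ a b, |g a b| ≤ 1) :
    IsArrangement (fam n h g) := by
  constructor
  · intro i
    unfold fam
    have := continuous_bump (h := h) (g := g) (tv h i)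
    fun_prop
  · intro i j hij
    have hcont : ∀ i : Fin n, Continuous (fam n h g i) := by
      intro i
      unfold fam
      have := continuous_bump (h := h) (g := g) (tv h i)
      fun_prop
    have key : ∀ i j : Fin n, tv h j < tv h i →
        ∃ x, fam n h g i x - fam n h g j x = 0 ∧ (∀ y < x, fam n h g i y - fam n h g j y < 0) ∧
          ∀ y > x, 0 < fam n h g i y - fam n h g j y := by
      intro i j hlt
      apply crossing_of_slope (D := fun x => fam n h g i x - fam n h g j x)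
        ((hcont i).sub (hcont j))
      intro x y hyx
      have h1 : (1 : ℝ) ≤ (tv h i : ℝ) - (tv h j : ℝ) := by
        have : (1 : ℤ) ≤ tv h i - tv h j := by omega
        exact_mod_cast this
      have h2 := abs_le.mp (amp_bump_lip (h := h) hg (tv h i) x y)
      have h3 := abs_le.mp (amp_bump_lip (h := h) hg (tv h j) x y)
      have h4 : |x - y| = x - y := abs_of_pos (by linarith)
      rw [h4] at h2 h3
      have h5 : (x - y) ≤ ((tv h i : ℝ) - (tv h j : ℝ)) * (x - y) := by nlinarith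
      unfold fam
      nlinarith [h2.1, h3.2]
    have hne : tv h i ≠ tv h j := by
      intro h0
      exact hij (Fin.ext (tv_injective h h0))
    rcases lt_or_gt_of_ne hne with hlt | hlt
    · obtain ⟨x, hx, h1, h2⟩ := key j i hlt
      refine ⟨x, by linarith, Or.inr ⟨?_, ?_⟩⟩
      · intro y hy; have := h1 y hy; linarith
      · intro y hy; have := h2 y hy; linarith
    · obtain ⟨x, hx, h1, h2⟩ := key i j hlt
      refine ⟨x, by linarith, Or.inl ⟨?_, ?_⟩⟩
      · intro y hy; have := h1 y hy; linarith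
      · intro y hy; have := h2 y hy; linarith

section
variable {n h : ℕ} {g : ℕ → ℕ → ℝ}

lemma fam_line {i : Fin n} (hi : (i : ℕ) < h) (x : ℝ) :
    fam n h g i x = (tv h i : ℝ) * x - (tv h i : ℝ) ^ 3 := by
  unfold fam
  have h1 : tv h i ≤ 0 := by
    unfold tv
    rw [if_pos hi]
    omega
  rw [bump_nonpos h1, mul_zero, add_zero]

/-- Values at the crossing point of two lines of negative slope. -/
lemma fam_cross {i j k : Fin n} (hij : (i : ℕ) < j) (hj : (j : ℕ) < h) (hk : h ≤ (k : ℕ))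
    (hsum : (k : ℕ) = i + j + 1) :
    fam n h g i (((i : ℝ) + 1) ^ 2 + ((i : ℝ) + 1) * ((j : ℝ) + 1) + ((j : ℝ) + 1) ^ 2) =
      fam n h g j (((i : ℝ) + 1) ^ 2 + ((i : ℝ) + 1) * ((j : ℝ) + 1) + ((j : ℝ) + 1) ^ 2) ∧
    fam n h g k (((i : ℝ) + 1) ^ 2 + ((i : ℝ) + 1) * ((j : ℝ) + 1) + ((j : ℝ) + 1) ^ 2) -
      fam n h g i (((i : ℝ) + 1) ^ 2 + ((i : ℝ) + 1) * ((j : ℝ) + 1) + ((j : ℝ) + 1) ^ 2) =
      amp h * (g ((i : ℕ) + 1) ((j : ℕ) + 1) / 4) := by
  have hi : (i : ℕ) < h := by omega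
  have ti : (tv h i : ℝ) = -((i : ℝ) + 1) := by
    unfold tv; rw [if_pos hi]; push_cast; ring
  have tj : (tv h j : ℝ) = -((j : ℝ) + 1) := by
    unfold tv; rw [if_pos hj]; push_cast; ring
  have tk : tv h k = (((i : ℕ) + 1 : ℕ) : ℤ) + (((j : ℕ) + 1 : ℕ) : ℤ) := by
    unfold tv; rw [if_neg (by omega), hsum]; push_cast; ring
  have tk' : (tv h k : ℝ) = ((i : ℝ) + 1) + ((j : ℝ) + 1) := by
    rw [tk]; push_cast; ring
  constructor
  · rw [fam_line hi, fam_line hj, ti, tj]
    ring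
  · rw [fam_line hi, ti]
    unfold fam
    have hb := bump_at (h := h) (g := g) (a := (i : ℕ) + 1) (b := (j : ℕ) + 1) (by omega)
      (by omega) (by omega)
    push_cast at hb
    rw [tk']
    rw [tk]
    push_cast
    rw [hb]
    ring

lemma fam_not_triple {i j k : Fin n} (hg : ∀ a b, g a b ≠ 0) (hij : (i : ℕ) < j)
    (hj : (j : ℕ) < h) (hk : h ≤ (k : ℕ)) (hsum : (k : ℕ) = i + j + 1) (x : ℝ)
    (h1 : fam n h g i x = fam n h g j x) (h2 : fam n h g k x = fam n h g i x) : False := by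
  have hi : (i : ℕ) < h := by omega
  have ti : (tv h i : ℝ) = -((i : ℝ) + 1) := by
    unfold tv; rw [if_pos hi]; push_cast; ring
  have tj : (tv h j : ℝ) = -((j : ℝ) + 1) := by
    unfold tv; rw [if_pos hj]; push_cast; ring
  have hx : x = ((i : ℝ) + 1) ^ 2 + ((i : ℝ) + 1) * ((j : ℝ) + 1) + ((j : ℝ) + 1) ^ 2 := by
    rw [fam_line hi, fam_line hj, ti, tj] at h1
    have hne : (j : ℝ) - i ≠ 0 := by
      have : (i : ℝ) < j := by exact_mod_cast hij
      intro h0; linarith
    apply mul_left_cancel₀ hne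
    linear_combination h1
  obtain ⟨_, h3⟩ := fam_cross (g := g) hij hj hk hsum
  rw [← hx, h2, sub_self] at h3
  have h4 : amp h * (g ((i : ℕ) + 1) ((j : ℕ) + 1) / 4) ≠ 0 :=
    mul_ne_zero (amp_pos h).ne' (div_ne_zero (hg _ _) (by norm_num))
  exact h4 h3.symm

/-- Approximate location of a crossing. -/
lemma cross_near (hg : ∀ a b, |g a b| ≤ 1) {i j : Fin n} (hij : i ≠ j) (x : ℝ)
    (h1 : fam n h g i x = fam n h g j x) :
    |x - ((tv h i ^ 2 + tv h i * tv h j + tv h j ^ 2 : ℤ) : ℝ)| ≤ 1 / 32 := by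
  have hne : tv h i ≠ tv h j := by
    intro h0
    exact hij (Fin.ext (tv_injective h h0))
  have habs : (1 : ℝ) ≤ |(tv h i : ℝ) - (tv h j : ℝ)| := by
    have : (1 : ℤ) ≤ |tv h i - tv h j| := Int.one_le_abs (sub_ne_zero.mpr hne)
    exact_mod_cast this
  have h2 : ((tv h i : ℝ) - (tv h j : ℝ)) *
      (x - ((tv h i ^ 2 + tv h i * tv h j + tv h j ^ 2 : ℤ) : ℝ)) =
      amp h * bump h g (tv h j) x - amp h * bump h g (tv h i) x := by
    unfold fam at h1
    push_cast
    linear_combination h1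
  have h3 : |((tv h i : ℝ) - (tv h j : ℝ)) *
      (x - ((tv h i ^ 2 + tv h i * tv h j + tv h j ^ 2 : ℤ) : ℝ))| ≤ 1 / 32 := by
    rw [h2]
    refine (abs_sub _ _).trans ?_
    have e1 := amp_bump_le (h := h) hg (tv h j) x
    have e2 := amp_bump_le (h := h) hg (tv h i) x
    linarith
  rw [abs_mul] at h3
  have h4 := abs_nonneg (x - ((tv h i ^ 2 + tv h i * tv h j + tv h j ^ 2 : ℤ) : ℝ))
  nlinarith

lemma sum_zero_of_triple (hg : ∀ a b, |g a b| ≤ 1) {i j k : Fin n} (hij : i ≠ j) (hjk : j ≠ k)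
    (hik : i ≠ k) (x : ℝ) (h1 : fam n h g i x = fam n h g j x)
    (h2 : fam n h g j x = fam n h g k x) : tv h i + tv h j + tv h k = 0 := by
  have e1 := cross_near hg hij x h1
  have e2 := cross_near hg hik x (h1.trans h2)
  have hjk' : tv h j ≠ tv h k := by
    intro h0
    exact hjk (Fin.ext (tv_injective h h0))
  have e3 : (tv h i ^ 2 + tv h i * tv h j + tv h j ^ 2 : ℤ) =
      (tv h i ^ 2 + tv h i * tv h k + tv h k ^ 2 : ℤ) := by
    have e4 := abs_le.mp e1
    have e5 := abs_le.mp e2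
    have e6 : ((tv h i ^ 2 + tv h i * tv h j + tv h j ^ 2 : ℤ) : ℝ) <
        ((tv h i ^ 2 + tv h i * tv h k + tv h k ^ 2 : ℤ) : ℝ) + 1 := by linarith [e4.1, e5.2]
    have e7 : ((tv h i ^ 2 + tv h i * tv h k + tv h k ^ 2 : ℤ) : ℝ) <
        ((tv h i ^ 2 + tv h i * tv h j + tv h j ^ 2 : ℤ) : ℝ) + 1 := by linarith [e4.2, e5.1]
    have e8 : (tv h i ^ 2 + tv h i * tv h j + tv h j ^ 2 : ℤ) <
        (tv h i ^ 2 + tv h i * tv h k + tv h k ^ 2 : ℤ) + 1 := by exact_mod_cast e6
    have e9 : (tv h i ^ 2 + tv h i * tv h k + tv h k ^ 2 : ℤ) <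
        (tv h i ^ 2 + tv h i * tv h j + tv h j ^ 2 : ℤ) + 1 := by exact_mod_cast e7
    omega
  have e10 : (tv h j - tv h k) * (tv h i + tv h j + tv h k) = 0 := by linear_combination e3
  rcases mul_eq_zero.mp e10 with h0 | h0
  · exact absurd (sub_eq_zero.mp h0) hjk'
  · exact h0

theorem fam_simple (hg : ∀ a b, |g a b| ≤ 1) (hg0 : ∀ a b, g a b ≠ 0) :
    IsSimple (fam n h g) := by
  have key : ∀ i j k : Fin n, (i : ℕ) < h → (j : ℕ) < h → h ≤ (k : ℕ) → i ≠ j →
      tv h i + tv h j + tv h k = 0 → ∀ x, fam n h g i x = fam n h g j x →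
        fam n h g k x = fam n h g i x → False := by
    intro i j k hi hj hk hij hsum x h1 h2
    have hs : (k : ℕ) = i + j + 1 := by
      unfold tv at hsum
      rw [if_pos hi, if_pos hj, if_neg (by omega)] at hsum
      omega
    have hne : (i : ℕ) ≠ j := fun h0 => hij (Fin.ext h0)
    rcases lt_or_gt_of_ne hne with hlt | hlt
    · exact fam_not_triple hg0 hlt hj hk hs x h1 h2
    · exact fam_not_triple hg0 hlt hi hk (by omega) x h1.symm (h2.trans h1)
  intro i j k hij hjk hik x ⟨h1, h2⟩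
  have hsum := sum_zero_of_triple hg hij hjk hik x h1 h2
  rcases lt_or_ge (i : ℕ) h with hi | hi
  · rcases lt_or_ge (j : ℕ) h with hj | hj
    · rcases lt_or_ge (k : ℕ) h with hk | hk
      · unfold tv at hsum
        rw [if_pos hi, if_pos hj, if_pos hk] at hsum
        omega
      · exact key i j k hi hj hk hij hsum x h1 (h1.trans h2).symm
    · rcases lt_or_ge (k : ℕ) h with hk | hk
      · exact key i k j hi hk hj hik (by linarith) x (h1.trans h2) h1.symm
      · unfold tv at hsum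
        rw [if_pos hi, if_neg (by omega), if_neg (by omega)] at hsum
        omega
  · rcases lt_or_ge (j : ℕ) h with hj | hj
    · rcases lt_or_ge (k : ℕ) h with hk | hk
      · exact key j k i hj hk hi hjk (by linarith) x h2 h1
      · unfold tv at hsum
        rw [if_neg (by omega), if_pos hj, if_neg (by omega)] at hsum
        omega
    · rcases lt_or_ge (k : ℕ) h with hk | hk
      · unfold tv at hsum
        rw [if_neg (by omega), if_neg (by omega), if_pos hk] at hsum
        omega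
      · unfold tv at hsum
        rw [if_neg (by omega), if_neg (by omega), if_neg (by omega)] at hsum
        omega

end

end Pool.Agent.W_MP_be22fd_co_nlog
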