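import Pool.Agent.W_MP_be22fd_co_nlog.Relation

set_option autoImplicit false

namespace Pool.Agent.W_MP_be22fd_co_nlog

open MvPolynomial

variable {σ : Type*} [Fintype σ] [DecidableEq σ]

/-- The linear form `∑ t^(index of k) x_k`. -/
noncomputable def linForm (t : ℕ) : MvPolynomial σ ℝ :=
  ∑ k, C ((t : ℝ) ^ (Fintype.equivFin σ k : ℕ)) * X k

lemma degreeOf_linForm (t : ℕ) (i : σ) : (linForm t : MvPolynomial σ ℝ).degreeOf i ≤ 1 := by
  unfold linForm
  refine (degreeOf_sum_le i _ _).trans ?_
  apply Finset.sup_le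
  intro k _
  refine (degreeOf_mul_le i _ _).trans ?_
  rw [degreeOf_C, zero_add, degreeOf_X]
  split_ifs <;> omega

lemma eval_linForm (t : ℕ) (x : σ → ℝ) :
    eval x (linForm t) = ∑ k, (t : ℝ) ^ (Fintype.equivFin σ k : ℕ) * x k := by
  unfold linForm
  simp

lemma exists_separating (T : Finset (σ → ℝ)) :
    ∃ t ∈ Finset.range (T.card ^ 2 * Fintype.card σ + 1),
      ∀ x ∈ T, ∀ y ∈ T, x ≠ y → eval x (linForm t) ≠ eval y (linForm t) := by
  classical
  by_contra hcon
  push Not at hcon
  -- difference polynomials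
  let p : (σ → ℝ) × (σ → ℝ) → Polynomial ℝ := fun xy =>
    ∑ k, Polynomial.C (xy.1 k - xy.2 k) * Polynomial.X ^ (Fintype.equivFin σ k : ℕ)
  have hp0 : ∀ xy : (σ → ℝ) × (σ → ℝ), xy.1 ≠ xy.2 → p xy ≠ 0 := by
    intro xy hxy h0
    apply hxy
    funext k
    have h1 : (p xy).coeff (Fintype.equivFin σ k : ℕ) = xy.1 k - xy.2 k := by
      simp only [p, Polynomial.finsetSum_coeff, Polynomial.coeff_C_mul, Polynomial.coeff_X_pow]
      rw [Finset.sum_eq_single k]
      · simp
      · intro j _ hj
        rw [if_neg, mul_zero]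
        intro h
        apply hj
        have := Fin.ext h
        exact ((Fintype.equivFin σ).injective this).symm
      · simp
    rw [h0] at h1
    simp only [Polynomial.coeff_zero] at h1
    linarith
  have hpdeg : ∀ xy : (σ → ℝ) × (σ → ℝ), (p xy).natDegree ≤ Fintype.card σ := by
    intro xy
    apply Polynomial.natDegree_sum_le_of_forall_le
    intro k _
    refine (Polynomial.natDegree_C_mul_X_pow_le _ _).trans ?_
    exact (Fintype.equivFin σ k).2.le
  have hpeval : ∀ (xy : (σ → ℝ) × (σ → ℝ)) (t : ℕ), (p xy).eval (t : ℝ) =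
      eval xy.1 (linForm t) - eval xy.2 (linForm t) := by
    intro xy t
    rw [eval_linForm, eval_linForm, ← Finset.sum_sub_distrib]
    simp only [p, Polynomial.eval_finsetSum]
    apply Finset.sum_congr rfl
    intro k _
    simp only [Polynomial.eval_mul, Polynomial.eval_C, Polynomial.eval_pow, Polynomial.eval_X]
    ring
  set S : Finset ((σ → ℝ) × (σ → ℝ)) := (T ×ˢ T).filter (fun xy => xy.1 ≠ xy.2) with hS
  have hScard : S.card ≤ T.card ^ 2 := by
    refine (Finset.card_filter_le _ _).trans ?_
    rw [Finset.card_product, sq]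
  set q : Polynomial ℝ := ∏ xy ∈ S, p xy with hq
  have hq0 : q ≠ 0 := by
    rw [hq, Finset.prod_ne_zero_iff]
    intro xy hxy
    exact hp0 xy (Finset.mem_filter.mp hxy).2
  have hqdeg : q.natDegree ≤ T.card ^ 2 * Fintype.card σ := by
    rw [hq]
    refine (Polynomial.natDegree_prod_le _ _).trans ?_
    calc ∑ xy ∈ S, (p xy).natDegree ≤ ∑ _xy ∈ S, Fintype.card σ :=
          Finset.sum_le_sum (fun xy _ => hpdeg xy)
      _ = S.card * Fintype.card σ := by simp
      _ ≤ T.card ^ 2 * Fintype.card σ := Nat.mul_le_mul_right _ hScard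
  apply hq0
  apply Polynomial.eq_zero_of_natDegree_lt_card_of_eval_eq_zero' q
    ((Finset.range (T.card ^ 2 * Fintype.card σ + 1)).image (fun m : ℕ => (m : ℝ)))
  · intro r hr
    obtain ⟨t, ht, rfl⟩ := Finset.mem_image.mp hr
    obtain ⟨x, hx, y, hy, hxy, he⟩ := hcon t ht
    rw [hq, Polynomial.eval_prod]
    apply Finset.prod_eq_zero (i := (x, y))
    · rw [hS, Finset.mem_filter, Finset.mem_product]
      exact ⟨⟨hx, hy⟩, hxy⟩
    · rw [hpeval]
      simp only
      rw [he, sub_self]
  · rw [Finset.card_image_of_injective _ Nat.cast_injective, Finset.card_range]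
    omega

/-- **Number of strict sign patterns.** If at the points of `T` none of the polynomials `F j`
vanishes and distinct points of `T` have distinct sign vectors, then
`|T| ≤ (2 (s D + 2) M)^M`, `s` the number of polynomials, `D` a bound for their degree in each
variable and `M` the number of variables. -/
theorem sign_patterns_bound {ι : Type*} [Fintype ι] (F : ι → MvPolynomial σ ℝ) (D : ℕ)
    (hD : ∀ j k, (F j).degreeOf k ≤ D) (hcard : 1 ≤ Fintype.card σ) (T : Finset (σ → ℝ))
    (hne : ∀ u ∈ T, ∀ j, eval u (F j) ≠ 0)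
    (hdist : ∀ u ∈ T, ∀ u' ∈ T, (∀ j, 0 < eval u (F j) * eval u' (F j)) → u = u') :
    T.card ≤ (2 * (Fintype.card ι * D + 2) * Fintype.card σ) ^ Fintype.card σ := by
  classical
  set M := Fintype.card σ with hM
  set E : ℕ := Fintype.card ι * D + 2 with hE
  -- a large radius
  obtain ⟨R, hR⟩ : ∃ R : ℝ, ∀ u ∈ T, ∑ i, (u i) ^ 2 < R ^ 2 := by
    refine ⟨1 + ∑ u ∈ T, ∑ i, (u i) ^ 2, ?_⟩
    intro u hu
    have h1 : ∑ i, (u i) ^ 2 ≤ ∑ u ∈ T, ∑ i, (u i) ^ 2 :=
      Finset.single_le_sum (f := fun u : σ → ℝ => ∑ i, (u i) ^ 2)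
        (fun u _ => Finset.sum_nonneg (fun i _ => sq_nonneg _)) hu
    have h2 : 0 ≤ ∑ i, (u i) ^ 2 := Finset.sum_nonneg (fun i _ => sq_nonneg _)
    nlinarith
  set P : MvPolynomial σ ℝ := (∏ j, F j) * (C (R ^ 2) - ∑ i, X i ^ 2) with hP
  have hPdeg : ∀ k, P.degreeOf k ≤ E := by
    intro k
    rw [hP]
    refine (degreeOf_mul_le k _ _).trans ?_
    rw [hE]
    apply Nat.add_le_add
    · refine (degreeOf_prod_le k _ _).trans ?_
      calc ∑ j, (F j).degreeOf k ≤ ∑ _j : ι, D := Finset.sum_le_sum (fun j _ => hD j k)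
        _ = Fintype.card ι * D := by simp
    · refine (degreeOf_sub_le k _ _).trans ?_
      apply max_le
      · rw [degreeOf_C]; omega
      · refine (degreeOf_sum_le k _ _).trans ?_
        apply Finset.sup_le
        intro i _
        refine (degreeOf_pow_le k _ _).trans ?_
        rw [degreeOf_X]
        split_ifs <;> omega
  set A : ℕ := (2 * E * M) ^ M + 1 with hA
  set L : ℕ := T.card ^ 2 * M + 1 with hL
  have hrel := fun t : ℕ => exists_relation P (linForm t) E A (by omega) hcard hPdeg
    (degreeOf_linForm t) (Nat.lt_succ_self _)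
  choose c hc0 hc using hrel
  have hb : ∀ t : ℕ, ∃ ab : (σ → Fin A) × Fin A, c t ab ≠ 0 := by
    intro t
    by_contra hcon
    push Not at hcon
    exact hc0 t (funext hcon)
  choose ab hab using hb
  -- coefficient polynomials in v
  let q : ℕ → Fin A → MvPolynomial σ ℝ := fun t b =>
    ∑ a : σ → Fin A, monomial (Finsupp.equivFunOnFinite.symm (fun i => (a i : ℕ))) (c t (a, b))
  have hqe : ∀ (t : ℕ) (b : Fin A) (v : σ → ℝ),
      eval v (q t b) = ∑ a : σ → Fin A, c t (a, b) * ∏ i, (v i) ^ (a i : ℕ) := by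
    intro t b v
    simp only [q, map_sum, eval_monomial]
    apply Finset.sum_congr rfl
    intro a _
    congr 1
    rw [Finsupp.prod_fintype]
    · rfl
    · intro i; simp
  have hq0 : ∀ t : ℕ, q t (ab t).2 ≠ 0 := by
    intro t h0
    apply hab t
    have h1 : coeff (Finsupp.equivFunOnFinite.symm (fun i => ((ab t).1 i : ℕ))) (q t (ab t).2) =
        c t ((ab t).1, (ab t).2) := by
      simp only [q, coeff_sum, coeff_monomial]
      rw [Finset.sum_eq_single (ab t).1]
      · simp
      · intro a _ ha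
        rw [if_neg]
        intro h
        apply ha
        have h2 := Finsupp.equivFunOnFinite.symm.injective h
        funext i
        exact Fin.ext (congrFun h2 i)
      · simp
    rw [h0, coeff_zero] at h1
    exact h1.symm
  -- choose v
  obtain ⟨v, hv⟩ : ∃ v : σ → ℝ, eval v (∏ t ∈ Finset.range L, q t (ab t).2) ≠ 0 := by
    by_contra hcon
    push Not at hcon
    have h0 : (∏ t ∈ Finset.range L, q t (ab t).2) = 0 := by
      apply MvPolynomial.funext
      intro x
      rw [hcon x]
      simp
    rw [Finset.prod_eq_zero_iff] at h0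
    obtain ⟨t, _, ht⟩ := h0
    exact hq0 t ht
  rw [map_prod, Finset.prod_ne_zero_iff] at hv
  -- critical points
  have hcrit : ∀ u : σ → ℝ, u ∈ T → ∃ x : σ → ℝ, (∀ j, 0 < eval x (F j) * eval u (F j)) ∧
      eval x P ≠ 0 ∧ ∀ i, eval x (pderiv i P) = v i * eval x P :=
    fun u hu => exists_crit F R u (hne u hu) (hR u hu) v
  choose! x hx1 hx2 hx3 using hcrit
  have hinj : Set.InjOn x T := by
    intro u hu u' hu' huu
    apply hdist u hu u' hu'
    intro j
    have h1 := hx1 u hu j
    have h2 := hx1 u' hu' j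
    rw [← huu] at h2
    have h3 : 0 < (eval (x u) (F j) * eval u (F j)) * (eval (x u) (F j) * eval u' (F j)) :=
      mul_pos h1 h2
    have h4 : (eval (x u) (F j) * eval u (F j)) * (eval (x u) (F j) * eval u' (F j)) =
        (eval (x u) (F j)) ^ 2 * (eval u (F j) * eval u' (F j)) := by ring
    rw [h4] at h3
    by_contra hcon
    push Not at hcon
    exact absurd h3 (not_lt.mpr (mul_nonpos_of_nonneg_of_nonpos (sq_nonneg _) hcon))
  have hTcard : (T.image x).card = T.card := Finset.card_image_of_injOn hinj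
  obtain ⟨t, ht, hsep⟩ := exists_separating (T.image x)
  rw [hTcard, ← hM] at ht
  -- univariate polynomial
  set Q : Polynomial ℝ := ∑ b : Fin A, Polynomial.C (eval v (q t b)) * Polynomial.X ^ (b : ℕ)
    with hQ
  have hQ0 : Q ≠ 0 := by
    intro h0
    have h1 : Q.coeff ((ab t).2 : ℕ) = eval v (q t (ab t).2) := by
      rw [hQ]
      simp only [Polynomial.finsetSum_coeff, Polynomial.coeff_C_mul, Polynomial.coeff_X_pow]
      rw [Finset.sum_eq_single (ab t).2]
      · simp
      · intro b _ hb
        rw [if_neg, mul_zero]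
        intro h
        exact hb (Fin.ext h.symm)
      · simp
    rw [h0, Polynomial.coeff_zero] at h1
    exact hv t (Finset.mem_range.mpr (by rw [hL]; exact Finset.mem_range.mp ht)) h1.symm
  have hQdeg : Q.natDegree ≤ A - 1 := by
    rw [hQ]
    apply Polynomial.natDegree_sum_le_of_forall_le
    intro b _
    refine (Polynomial.natDegree_C_mul_X_pow_le _ _).trans ?_
    have := b.2
    omega
  have hroot : ∀ u ∈ T, Q.eval (eval (x u) (linForm t)) = 0 := by
    intro u hu
    have h1 := hc t (x u) v (hx2 u hu) (hx3 u hu)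
    rw [hQ, Polynomial.eval_finsetSum]
    simp only [Polynomial.eval_mul, Polynomial.eval_C, Polynomial.eval_pow, Polynomial.eval_X]
    rw [Fintype.sum_prod_type_right] at h1
    rw [← h1]
    apply Finset.sum_congr rfl
    intro b _
    rw [hqe, Finset.sum_mul]
    apply Finset.sum_congr rfl
    intro a _
    ring
  -- count roots
  have hcardT : T.card ≤ A - 1 := by
    have h1 : (T.image (fun u => eval (x u) (linForm t))).card = T.card := by
      apply Finset.card_image_of_injOn
      intro u hu u' hu' h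
      by_contra hne'
      have h2 : x u ≠ x u' := fun h' => hne' (hinj hu hu' h')
      exact hsep (x u) (Finset.mem_image_of_mem x hu) (x u') (Finset.mem_image_of_mem x hu') h2 h
    rw [← h1]
    refine le_trans ?_ hQdeg
    apply Polynomial.card_le_degree_of_subset_roots
    intro r hr
    obtain ⟨u, hu, hru⟩ := Finset.mem_image.mp (Multiset.mem_toFinset.mp (by simpa using hr) |> fun h => h)
    rw [Polynomial.mem_roots hQ0, Polynomial.IsRoot.def, ← hru]
    exact hroot u hu
  omega

end Pool.Agent.W_MP_be22fd_co_nlog
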