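import Pool.Agent.W_MP_be22fd_co_nlog.Topo
import Pool.Agent.W_MP_be22fd_co_nlog.Family
import Pool.Agent.W_MP_be22fd_co_nlog.SignPatterns

set_option autoImplicit false

namespace Pool.Agent.W_MP_be22fd_co_nlog

/-- bits to signs -/
noncomputable def bits (q : ℕ) (be : Fin q × Fin q → Bool) (a b : ℕ) : ℝ :=
  if h : (2 * q + 1 ≤ a ∧ a < 3 * q + 1) ∧ (3 * q + 1 ≤ b ∧ b < 4 * q + 1) then
    (if be (⟨a - (2 * q + 1), by omega⟩, ⟨b - (3 * q + 1), by omega⟩) then 1 else -1) else 1

lemma bits_or (q : ℕ) (be : Fin q × Fin q → Bool) (a b : ℕ) :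
    bits q be a b = 1 ∨ bits q be a b = -1 := by
  unfold bits
  split_ifs <;> simp

lemma abs_bits (q : ℕ) (be : Fin q × Fin q → Bool) (a b : ℕ) : |bits q be a b| ≤ 1 := by
  rcases bits_or q be a b with h | h <;> rw [h] <;> simp

lemma bits_ne (q : ℕ) (be : Fin q × Fin q → Bool) (a b : ℕ) : bits q be a b ≠ 0 := by
  rcases bits_or q be a b with h | h <;> rw [h] <;> simp

lemma bits_at (q : ℕ) (be : Fin q × Fin q → Bool) (r s : Fin q) :
    bits q be (2 * q + 1 + r) (3 * q + 1 + s) = if be (r, s) then 1 else -1 := by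
  have hr := r.2
  have hs := s.2
  unfold bits
  rw [dif_pos ⟨⟨by omega, by omega⟩, ⟨by omega, by omega⟩⟩]
  have e1 : (⟨2 * q + 1 + r - (2 * q + 1), by omega⟩ : Fin q) = r := by
    apply Fin.ext; simp
  have e2 : (⟨3 * q + 1 + s - (3 * q + 1), by omega⟩ : Fin q) = s := by
    apply Fin.ext; simp
  rw [e1, e2]

/-- The family of polynomials whose sign vector is recorded. -/
noncomputable def polyFam (n D : ℕ) :
    (Fin n × Fin n) ⊕ (Fin n × Fin n × Fin n) → MvPolynomial (Fin n × Fin (D + 1)) ℝ
  | Sum.inl (i, j) => if i ≠ j then lcP n D i j else 1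
  | Sum.inr (i, j, k) => if i ≠ j ∧ j ≠ k ∧ i ≠ k then resP n D i j k else 1

lemma polyFam_inl (n D : ℕ) (i j : Fin n) :
    polyFam n D (Sum.inl (i, j)) = if i ≠ j then lcP n D i j else 1 := rfl

lemma polyFam_inr (n D : ℕ) (i j k : Fin n) :
    polyFam n D (Sum.inr (i, j, k)) = if i ≠ j ∧ j ≠ k ∧ i ≠ k then resP n D i j k else 1 := rfl

lemma degreeOf_polyFam {n D : ℕ} (hD : 1 ≤ D) (x : (Fin n × Fin n) ⊕ (Fin n × Fin n × Fin n))
    (s : Fin n × Fin (D + 1)) : (polyFam n D x).degreeOf s ≤ 2 * D := by
  rcases x with ⟨i, j⟩ | ⟨i, j, k⟩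
  · rw [polyFam_inl]
    split_ifs
    · exact (degreeOf_lcP i j s).trans (by omega)
    · simp
  · rw [polyFam_inr]
    split_ifs
    · exact (degreeOf_resP i j k s).trans (by omega)
    · simp

/-- Main counting inequality. -/
theorem counting {n q d D : ℕ} (hn : 8 * q ≤ n) (hn1 : 1 ≤ n) (hdD : d < D) (hodd : Odd D)
    (hall : ∀ f : Fin n → ℝ → ℝ, IsArrangement f → IsSimple f → IsStretchable d f) :
    2 ^ (q * q) ≤ (2 * ((n * n + n * (n * n)) * (2 * D) + 2) * (n * (D + 1))) ^ (n * (D + 1)) *
      (n.factorial * 2 ^ n) := by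
  classical
  let f : (Fin q × Fin q → Bool) → Fin n → ℝ → ℝ := fun be => fam n (4 * q) (bits q be)
  have hcode := fun be : Fin q × Fin q → Bool => exists_code hdD hodd
    (fam_arrangement n (4 * q) (bits q be) (abs_bits q be))
    (fam_simple (abs_bits q be) (bits_ne q be))
    (hall _ (fam_arrangement n (4 * q) (bits q be) (abs_bits q be))
      (fam_simple (abs_bits q be) (bits_ne q be)))
  choose s e u hu1 hu2 hu3 using hcode
  have hne : ∀ be x, MvPolynomial.eval (u be) (polyFam n D x) ≠ 0 := by
    intro be x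
    rcases x with ⟨i, j⟩ | ⟨i, j, k⟩
    · rw [polyFam_inl]
      split_ifs with h
      · exact hu1 be i j h
      · simp
    · rw [polyFam_inr]
      split_ifs with h
      · exact hu2 be i j k h.1 h.2.1 h.2.2
      · simp
  -- the code determines the bits
  have hinj : ∀ be be' : Fin q × Fin q → Bool, s be = s be' → e be = e be' →
      (∀ x, 0 < MvPolynomial.eval (u be) (polyFam n D x) *
        MvPolynomial.eval (u be') (polyFam n D x)) → be = be' := by
    intro be be' hs he hx
    funext rs
    obtain ⟨r, t⟩ := rs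
    have hr := r.2
    have ht := t.2
    let i : Fin n := ⟨2 * q + r, by omega⟩
    let j : Fin n := ⟨3 * q + t, by omega⟩
    let k : Fin n := ⟨(2 * q + r) + (3 * q + t) + 1, by omega⟩
    have hij : i ≠ j := by
      intro h; have := congrArg Fin.val h; simp only [i, j] at this; omega
    have hjk : j ≠ k := by
      intro h; have := congrArg Fin.val h; simp only [j, k] at this; omega
    have hik : i ≠ k := by
      intro h; have := congrArg Fin.val h; simp only [i, k] at this; omega
    have hcr := fun b : Fin q × Fin q → Bool => fam_cross (n := n) (h := 4 * q) (g := bits q b)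
      (i := i) (j := j) (k := k) (by simp only [i, j]; omega) (by simp only [j]; omega)
      (by simp only [k]; omega) (by simp only [i, j, k])
    set x : ℝ := (((i : ℕ) : ℝ) + 1) ^ 2 + (((i : ℕ) : ℝ) + 1) * (((j : ℕ) : ℝ) + 1) +
      (((j : ℕ) : ℝ) + 1) ^ 2 with hxdef
    have hb : ∀ b : Fin q × Fin q → Bool,
        bits q b ((i : ℕ) + 1) ((j : ℕ) + 1) = if b (r, t) then 1 else -1 := by
      intro b
      have := bits_at q b r t
      rw [← this]
      congr 1
      · simp only [i]; omega
      · simp only [j]; omega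
    have h1 := hu3 be i j k hij hjk hik x (hcr be).1
    have h2 := hu3 be' i j k hij hjk hik x (hcr be').1
    rw [(hcr be).2, hb be] at h1
    rw [(hcr be').2, hb be', ← hs, ← he] at h2
    have hsij : s be i ≠ s be j := fun h => hij ((s be).injective h)
    have hsjk : s be j ≠ s be k := fun h => hjk ((s be).injective h)
    have hsik : s be i ≠ s be k := fun h => hik ((s be).injective h)
    have h3 := hx (Sum.inl (s be i, s be j))
    have h4 := hx (Sum.inr (s be i, s be j, s be k))
    rw [polyFam_inl, if_pos hsij] at h3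
    rw [polyFam_inr, if_pos (show s be i ≠ s be j ∧ s be j ≠ s be k ∧ s be i ≠ s be k from
      ⟨hsij, hsjk, hsik⟩)] at h4
    set A1 := MvPolynomial.eval (u be) (lcP n D (s be i) (s be j))
    set A2 := MvPolynomial.eval (u be') (lcP n D (s be i) (s be j))
    set B1 := MvPolynomial.eval (u be) (resP n D (s be i) (s be j) (s be k))
    set B2 := MvPolynomial.eval (u be') (resP n D (s be i) (s be j) (s be k))
    have hamp := amp_pos (4 * q)
    -- combine
    have h5 : 0 < ((if e be k then (1 : ℝ) else -1) * (amp (4 * q) *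
        ((if be (r, t) then 1 else -1) / 4) * (A1 * B1))) *
        ((if e be k then (1 : ℝ) else -1) * (amp (4 * q) *
        ((if be' (r, t) then 1 else -1) / 4) * (A2 * B2))) := mul_pos h1 h2
    have h6 : 0 < (A1 * A2) * (B1 * B2) := mul_pos h3 h4
    cases hbe : be (r, t) <;> cases hbe' : be' (r, t)
    · rfl
    · exfalso
      rw [hbe, hbe'] at h5
      have h7 : ((if e be k then (1 : ℝ) else -1) * (amp (4 * q) *
        ((if false = true then 1 else -1) / 4) * (A1 * B1))) *
        ((if e be k then (1 : ℝ) else -1) * (amp (4 * q) *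
        ((if true = true then 1 else -1) / 4) * (A2 * B2))) =
        -(((if e be k then (1 : ℝ) else -1) * (amp (4 * q) / 4)) ^ 2 * ((A1 * A2) * (B1 * B2))) := by
        simp only [if_true, Bool.false_eq_true, if_false]
        ring
      rw [h7] at h5
      have h8 : 0 ≤ ((if e be k then (1 : ℝ) else -1) * (amp (4 * q) / 4)) ^ 2 *
        ((A1 * A2) * (B1 * B2)) := mul_nonneg (sq_nonneg _) h6.le
      linarith
    · exfalso
      rw [hbe, hbe'] at h5
      have h7 : ((if e be k then (1 : ℝ) else -1) * (amp (4 * q) *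
        ((if true = true then 1 else -1) / 4) * (A1 * B1))) *
        ((if e be k then (1 : ℝ) else -1) * (amp (4 * q) *
        ((if false = true then 1 else -1) / 4) * (A2 * B2))) =
        -(((if e be k then (1 : ℝ) else -1) * (amp (4 * q) / 4)) ^ 2 * ((A1 * A2) * (B1 * B2))) := by
        simp only [if_true, Bool.false_eq_true, if_false]
        ring
      rw [h7] at h5
      have h8 : 0 ≤ ((if e be k then (1 : ℝ) else -1) * (amp (4 * q) / 4)) ^ 2 *
        ((A1 * A2) * (B1 * B2)) := mul_nonneg (sq_nonneg _) h6.le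
      linarith
    · rfl
  -- fibres
  have hfib : ∀ se : Equiv.Perm (Fin n) × (Fin n → Bool),
      ((Finset.univ : Finset (Fin q × Fin q → Bool)).filter
        (fun be => (s be, e be) = se)).card ≤
      (2 * ((n * n + n * (n * n)) * (2 * D) + 2) * (n * (D + 1))) ^ (n * (D + 1)) := by
    intro se
    set Fb := (Finset.univ : Finset (Fin q × Fin q → Bool)).filter
        (fun be => (s be, e be) = se) with hFb
    have hmem : ∀ be ∈ Fb, s be = se.1 ∧ e be = se.2 := by
      intro be hbe
      have := (Finset.mem_filter.mp hbe).2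
      exact ⟨congrArg Prod.fst this, congrArg Prod.snd this⟩
    have hsq : ∀ be x, 0 < MvPolynomial.eval (u be) (polyFam n D x) *
        MvPolynomial.eval (u be) (polyFam n D x) := fun be x => mul_self_pos.mpr (hne be x)
    have hinjOn : Set.InjOn u Fb := by
      intro be hbe be' hbe' huu
      apply hinj be be' ((hmem be hbe).1.trans (hmem be' hbe').1.symm)
        ((hmem be hbe).2.trans (hmem be' hbe').2.symm)
      intro x
      rw [← huu]
      exact hsq be x
    rw [← Finset.card_image_of_injOn hinjOn]
    have hD1 : 1 ≤ D := by omega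
    have hbound := sign_patterns_bound (polyFam n D) (2 * D)
      (fun x k => degreeOf_polyFam hD1 x k)
      (by
        simp only [Fintype.card_prod, Fintype.card_fin]
        exact Nat.mul_pos (by omega) (by omega)) (Fb.image u)
      (by
        intro v hv x
        obtain ⟨be, _, rfl⟩ := Finset.mem_image.mp hv
        exact hne be x)
      (by
        intro v hv v' hv' hx
        obtain ⟨be, hbe, rfl⟩ := Finset.mem_image.mp hv
        obtain ⟨be', hbe', rfl⟩ := Finset.mem_image.mp hv'
        rw [hinj be be' ((hmem be hbe).1.trans (hmem be' hbe').1.symm)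
          ((hmem be hbe).2.trans (hmem be' hbe').2.symm) hx])
    simpa only [Fintype.card_sum, Fintype.card_prod, Fintype.card_fin] using hbound
  have hfinal := Finset.card_le_mul_card_image_of_maps_to
    (s := (Finset.univ : Finset (Fin q × Fin q → Bool)))
    (t := (Finset.univ : Finset (Equiv.Perm (Fin n) × (Fin n → Bool))))
    (f := fun be => (s be, e be)) (fun _ _ => Finset.mem_univ _) _ (fun se _ => hfib se)
  simpa only [Finset.card_univ, Fintype.card_fun, Fintype.card_prod, Fintype.card_fin,
    Fintype.card_bool, Fintype.card_perm] using hfinal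

end Pool.Agent.W_MP_be22fd_co_nlog
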