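import Mathlib

set_option autoImplicit false

namespace Pool.Agent.W_MP_be22fd_co_nlog

open MvPolynomial

variable {σ : Type*} [Fintype σ] [DecidableEq σ]

/-- Derivative of a polynomial function along a coordinate line. -/
lemma hasDerivAt_eval_update (P : MvPolynomial σ ℝ) (x : σ → ℝ) (i : σ) (s : ℝ) :
    HasDerivAt (fun s : ℝ => eval (Function.update x i s) P)
      (eval (Function.update x i s) (pderiv i P)) s := by
  induction P using MvPolynomial.induction_on with
  | C a => simpa using hasDerivAt_const s a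
  | add p q hp hq =>
    have h := hp.add hq
    simp only [map_add]
    exact h
  | mul_X p j hp =>
    have hX : HasDerivAt (fun s : ℝ => (Function.update x i s) j) (if j = i then 1 else 0) s := by
      by_cases h : j = i
      · subst h
        simp only [Function.update_self, if_true]
        exact hasDerivAt_id' s
      · simpa [Function.update_of_ne h, h] using hasDerivAt_const s (x j)
    have h := hp.mul hX
    have e1 : (fun s : ℝ => eval (Function.update x i s) (p * X j)) =
        (fun s : ℝ => eval (Function.update x i s) p) *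
          (fun s : ℝ => (Function.update x i s) j) := by
      funext s
      simp
    have e2 : eval (Function.update x i s) (pderiv i (p * X j)) =
        (eval (Function.update x i s)) ((pderiv i) p) * Function.update x i s j +
          (eval (Function.update x i s)) p * (if j = i then 1 else 0) := by
      rw [pderiv_mul]
      by_cases hij : j = i
      · subst hij
        simp
      · simp [pderiv_X_of_ne hij, hij]
    rw [e1, e2]
    exact h

omit [Fintype σ] [DecidableEq σ] in
lemma degreeOf_pderiv_le (P : MvPolynomial σ ℝ) (i k : σ) :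
    (pderiv i P).degreeOf k ≤ P.degreeOf k := by
  rw [degreeOf_le_iff]
  intro m hm
  rw [mem_support_iff, coeff_pderiv] at hm
  have h1 : coeff (m + Finsupp.single i 1) P ≠ 0 := by
    intro h0
    apply hm
    rw [h0]
    simp
  have h2 := le_degreeOf_of_mem_support (p := P) k (s := m + Finsupp.single i 1)
    (by rw [mem_support_iff]; exact h1)
  refine le_trans ?_ h2
  simp

/-- Maximum principle: for every vector `v` and every point `u` off the zero set of the `F j`,
inside the sign region of `u` there is a point at which the logarithmic gradient of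
`P = (∏ F j) * (R² - ∑ X i ²)` is `v`. -/
lemma exists_crit {ι : Type*} [Fintype ι] (F : ι → MvPolynomial σ ℝ) (R : ℝ)
    (u : σ → ℝ) (hu : ∀ j, eval u (F j) ≠ 0) (hR : ∑ i, (u i) ^ 2 < R ^ 2) (v : σ → ℝ) :
    ∃ x : σ → ℝ, (∀ j, 0 < eval x (F j) * eval u (F j)) ∧
      eval x ((∏ j, F j) * (C (R ^ 2) - ∑ i, X i ^ 2)) ≠ 0 ∧
      ∀ i, eval x (pderiv i ((∏ j, F j) * (C (R ^ 2) - ∑ i, X i ^ 2))) =
        v i * eval x ((∏ j, F j) * (C (R ^ 2) - ∑ i, X i ^ 2)) := by
  set P : MvPolynomial σ ℝ := (∏ j, F j) * (C (R ^ 2) - ∑ i, X i ^ 2) with hP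
  have hPe : ∀ x : σ → ℝ, eval x P = (∏ j, eval x (F j)) * (R ^ 2 - ∑ i, (x i) ^ 2) := by
    intro x
    simp [hP]
  have hPu : eval u P ≠ 0 := by
    rw [hPe]
    apply mul_ne_zero
    · exact Finset.prod_ne_zero_iff.mpr (fun j _ => hu j)
    · linarith
  set K : Set (σ → ℝ) := {x | (∀ j, 0 ≤ eval x (F j) * eval u (F j)) ∧
    ∑ i, (x i) ^ 2 ≤ R ^ 2} with hK
  have hcontF : ∀ Q : MvPolynomial σ ℝ, Continuous (fun x : σ → ℝ => eval x Q) :=
    fun Q => MvPolynomial.continuous_eval Q
  have hcontS : Continuous (fun x : σ → ℝ => ∑ i, (x i) ^ 2) := by fun_prop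
  have hclosed : IsClosed K := by
    have h1 : K = (⋂ j, {x : σ → ℝ | 0 ≤ eval x (F j) * eval u (F j)}) ∩
        {x : σ → ℝ | ∑ i, (x i) ^ 2 ≤ R ^ 2} := by
      ext x
      simp [hK]
    rw [h1]
    apply IsClosed.inter
    · apply isClosed_iInter
      intro j
      exact isClosed_le continuous_const ((hcontF (F j)).mul continuous_const)
    · exact isClosed_le hcontS continuous_const
  have hbdd : K ⊆ Set.pi Set.univ (fun _ : σ => Set.Icc (-|R|) |R|) := by
    intro x hx i _
    have h1 : (x i) ^ 2 ≤ ∑ i, (x i) ^ 2 :=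
      Finset.single_le_sum (f := fun i => (x i) ^ 2) (fun i _ => sq_nonneg _) (Finset.mem_univ i)
    have h2 : (x i) ^ 2 ≤ R ^ 2 := h1.trans hx.2
    have h3 := sq_le_sq.mp h2
    exact ⟨neg_le_of_abs_le h3, le_of_abs_le h3⟩
  have hcompact : IsCompact K :=
    (isCompact_univ_pi (fun _ => isCompact_Icc)).of_isClosed_subset hclosed hbdd
  set g : (σ → ℝ) → ℝ := fun x => eval u P * eval x P * Real.exp (-∑ i, v i * x i) with hg
  have hgcont : Continuous g := by
    apply Continuous.mul
    · exact continuous_const.mul (hcontF P)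
    · fun_prop
  have huK : u ∈ K := ⟨fun j => mul_self_nonneg _, hR.le⟩
  obtain ⟨x0, hx0K, hmax⟩ := hcompact.exists_isMaxOn ⟨u, huK⟩ hgcont.continuousOn
  have hgu : 0 < g u := by
    simp only [hg]
    apply mul_pos _ (Real.exp_pos _)
    exact mul_self_pos.mpr hPu
  have hgx0 : 0 < g x0 := lt_of_lt_of_le hgu (hmax huK)
  have hPx0 : eval x0 P ≠ 0 := by
    intro h0
    simp only [hg, h0] at hgx0
    simp at hgx0
  have hne : ∀ j, eval x0 (F j) ≠ 0 := by
    intro j h0
    apply hPx0
    rw [hPe, Finset.prod_eq_zero (Finset.mem_univ j) h0, zero_mul]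
  have hlt : ∑ i, (x0 i) ^ 2 < R ^ 2 := by
    rcases lt_or_eq_of_le hx0K.2 with h | h
    · exact h
    · exfalso
      apply hPx0
      rw [hPe, h, sub_self, mul_zero]
  have hstrict : ∀ j, 0 < eval x0 (F j) * eval u (F j) := by
    intro j
    exact lt_of_le_of_ne (hx0K.1 j) (mul_ne_zero (hne j) (hu j)).symm
  -- neighbourhood
  have hnhds : K ∈ nhds x0 := by
    have hopen : IsOpen ((⋂ j, {x : σ → ℝ | 0 < eval x (F j) * eval u (F j)}) ∩
        {x : σ → ℝ | ∑ i, (x i) ^ 2 < R ^ 2}) := by
      apply IsOpen.inter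
      · apply isOpen_iInter_of_finite
        intro j
        exact isOpen_lt continuous_const ((hcontF (F j)).mul continuous_const)
      · exact isOpen_lt hcontS continuous_const
    refine Filter.mem_of_superset (hopen.mem_nhds ?_) ?_
    · refine ⟨?_, hlt⟩
      simp only [Set.mem_iInter, Set.mem_ofPred_eq]
      exact hstrict
    · rintro x ⟨hx1, hx2⟩
      simp only [Set.mem_iInter, Set.mem_ofPred_eq] at hx1 hx2
      exact ⟨fun j => (hx1 j).le, hx2.le⟩
  have hloc : IsLocalMax g x0 := hmax.isLocalMax hnhds
  refine ⟨x0, hstrict, hPx0, ?_⟩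
  intro i
  -- one dimensional restriction
  have hupd : Function.update x0 i (x0 i) = x0 := Function.update_eq_self i x0
  have hcu : Continuous (fun s : ℝ => Function.update x0 i s) := by
    exact continuous_const.update i continuous_id
  have hloc1 : IsLocalMax (fun s : ℝ => g (Function.update x0 i s)) (x0 i) := by
    have h1 : Filter.Tendsto (fun s : ℝ => Function.update x0 i s) (nhds (x0 i)) (nhds x0) := by
      have := hcu.tendsto (x0 i)
      rwa [hupd] at this
    have h2 := h1.eventually hloc
    show ∀ᶠ s in nhds (x0 i), g (Function.update x0 i s) ≤ g (Function.update x0 i (x0 i))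
    rw [hupd]
    exact h2
  have hd1 := hasDerivAt_eval_update P x0 i (x0 i)
  have hlin : HasDerivAt (fun s : ℝ => -∑ k, v k * (Function.update x0 i s) k) (-(v i)) (x0 i) := by
    have e1 : (fun s : ℝ => -∑ k, v k * (Function.update x0 i s) k) =
        fun s : ℝ => -(v i * s + ∑ k ∈ Finset.univ.erase i, v k * x0 k) := by
      funext s
      rw [← Finset.add_sum_erase _ _ (Finset.mem_univ i)]
      congr 1
      congr 1
      · simp
      · apply Finset.sum_congr rfl
        intro k hk
        rw [Function.update_of_ne (Finset.ne_of_mem_erase hk)]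
    rw [e1]
    have h1 : HasDerivAt (fun s : ℝ => v i * s + ∑ k ∈ Finset.univ.erase i, v k * x0 k)
        (v i) (x0 i) := by
      simpa using ((hasDerivAt_id (x0 i)).const_mul (v i)).add_const
        (∑ k ∈ Finset.univ.erase i, v k * x0 k)
    exact h1.neg
  have hexp := hlin.exp
  have hd := (hd1.const_mul (eval u P)).mul hexp
  have hzero := hloc1.hasDerivAt_eq_zero hd
  rw [hupd] at hzero
  have hexpne : Real.exp (-∑ k, v k * x0 k) ≠ 0 := Real.exp_ne_zero _
  have h3 : eval u P * Real.exp (-∑ k, v k * x0 k) *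
      (eval x0 (pderiv i P) - v i * eval x0 P) = 0 := by
    linear_combination hzero
  rcases mul_eq_zero.mp h3 with h4 | h4
  · exact absurd h4 (mul_ne_zero hPu hexpne)
  · linarith

end Pool.Agent.W_MP_be22fd_co_nlog
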