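import Mathlib

/-!
# Arrangements of pseudolines and stretchability by polynomials
-/

set_option autoImplicit false

namespace Pool.Agent.W_MP_be22fd_co_nlog

/-- An arrangement of `n` pseudolines: graphs of continuous functions `f i` such that for `i ≠ j`
the difference `f i - f j` has exactly one zero and changes sign there. -/
def IsArrangement {n : ℕ} (f : Fin n → ℝ → ℝ) : Prop :=
  (∀ i, Continuous (f i)) ∧
    ∀ i j, i ≠ j → ∃ x, f i x = f j x ∧
      (((∀ y < x, f i y < f j y) ∧ ∀ y > x, f j y < f i y) ∨
        ((∀ y < x, f j y < f i y) ∧ ∀ y > x, f i y < f j y))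

/-- The arrangement is simple: no three of the curves pass through a common point. -/
def IsSimple {n : ℕ} (f : Fin n → ℝ → ℝ) : Prop :=
  ∀ i j k, i ≠ j → j ≠ k → i ≠ k → ∀ x, ¬(f i x = f j x ∧ f j x = f k x)

/-- The graph of a real function, as a subset of the plane. -/
def graph (g : ℝ → ℝ) : Set (ℝ × ℝ) := {p | p.2 = g p.1}

/-- Two arrangements are isomorphic if some homeomorphism of the plane maps the curves of one
bijectively onto the curves of the other. -/
def Isomorphic {n : ℕ} (f g : Fin n → ℝ → ℝ) : Prop :=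
  ∃ (h : (ℝ × ℝ) ≃ₜ (ℝ × ℝ)) (s : Equiv.Perm (Fin n)), ∀ i, h '' graph (f i) = graph (g (s i))

/-- An arrangement is `d`-stretchable if it is isomorphic to an arrangement whose curves are
graphs of real polynomials of degree at most `d`. -/
def IsStretchable {n : ℕ} (d : ℕ) (f : Fin n → ℝ → ℝ) : Prop :=
  ∃ p : Fin n → Polynomial ℝ, (∀ i, (p i).natDegree ≤ d) ∧
    IsArrangement (fun i x => (p i).eval x) ∧ Isomorphic f (fun i x => (p i).eval x)

end Pool.Agent.W_MP_be22fd_co_nlog
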