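import Pool.Agent.W_MP_be22fd_co_nlog.Counting

set_option autoImplicit false

namespace Pool.Agent.W_MP_be22fd_co_nlog

open Filter

/-- Clean numerical form of the counting inequality. -/
lemma counting_clean {n d : ℕ} (hn : 2 ≤ n) (hd : d < n)
    (hall : ∀ f : Fin n → ℝ → ℝ, IsArrangement f → IsSimple f → IsStretchable d f) :
    2 ^ ((n / 8) * (n / 8)) ≤ n ^ (n * (24 * d + 26)) := by
  have h := counting (q := n / 8) (D := 2 * d + 1) (by omega) (by omega) (by omega)
    ⟨d, rfl⟩ hall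
  refine h.trans ?_
  have h1 : 2 * ((n * n + n * (n * n)) * (2 * (2 * d + 1)) + 2) * (n * (2 * d + 1 + 1)) ≤
      n ^ 12 := by
    have e1 : 2 * d + 1 ≤ 2 * n := by omega
    have e2 : n * n ≤ n * (n * n) := Nat.mul_le_mul_left n (by nlinarith)
    have e3 : (n * n + n * (n * n)) * (2 * (2 * d + 1)) ≤ (2 * n ^ 3) * (4 * n) := by
      apply Nat.mul_le_mul
      · calc n * n + n * (n * n) ≤ n * (n * n) + n * (n * n) := by omega
          _ = 2 * n ^ 3 := by ring
      · omega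
    have e4 : 2 ≤ n ^ 4 := by
      calc 2 ≤ n := hn
        _ = n ^ 1 := (pow_one n).symm
        _ ≤ n ^ 4 := Nat.pow_le_pow_right (by omega) (by norm_num)
    have e5 : 2 * ((n * n + n * (n * n)) * (2 * (2 * d + 1)) + 2) ≤ 18 * n ^ 4 := by
      have : (2 * n ^ 3) * (4 * n) = 8 * n ^ 4 := by ring
      omega
    have e6 : n * (2 * d + 1 + 1) ≤ 2 * n ^ 2 := by
      calc n * (2 * d + 1 + 1) ≤ n * (2 * n) := Nat.mul_le_mul_left n (by omega)
        _ = 2 * n ^ 2 := by ring
    calc 2 * ((n * n + n * (n * n)) * (2 * (2 * d + 1)) + 2) * (n * (2 * d + 1 + 1))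
        ≤ (18 * n ^ 4) * (2 * n ^ 2) := Nat.mul_le_mul e5 e6
      _ = 36 * n ^ 6 := by ring
      _ ≤ n ^ 6 * n ^ 6 := by
          apply Nat.mul_le_mul_right
          calc 36 ≤ 2 ^ 6 := by norm_num
            _ ≤ n ^ 6 := Nat.pow_le_pow_left hn 6
      _ = n ^ 12 := by ring
  have h2 : n.factorial ≤ n ^ n := Nat.factorial_le_pow n
  have h3 : 2 ^ n ≤ n ^ n := Nat.pow_le_pow_left hn n
  calc (2 * ((n * n + n * (n * n)) * (2 * (2 * d + 1)) + 2) * (n * (2 * d + 1 + 1))) ^
        (n * (2 * d + 1 + 1)) * (n.factorial * 2 ^ n)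
      ≤ (n ^ 12) ^ (n * (2 * d + 1 + 1)) * (n ^ n * n ^ n) :=
        Nat.mul_le_mul (Nat.pow_le_pow_left h1 _) (Nat.mul_le_mul h2 h3)
    _ = n ^ (n * (24 * d + 26)) := by
        rw [← pow_mul, ← pow_add, ← pow_add]
        congr 1
        ring

/-- **Lower bound for the degree.** -/
theorem degree_lower_bound :
    ∀ᶠ n : ℕ in atTop, ∀ d : ℕ,
      (∀ f : Fin n → ℝ → ℝ, IsArrangement f → IsSimple f → IsStretchable d f) →
      (n : ℝ) / (20000 * Real.log n) ≤ d := by
  have hlim : Tendsto (fun n : ℕ => Real.log (n : ℝ) / (n : ℝ)) atTop (nhds 0) := by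
    have h1 : Tendsto (fun x : ℝ => Real.log x / x) atTop (nhds 0) := by
      have := Real.tendsto_pow_log_div_mul_add_atTop 1 0 1 one_ne_zero
      simpa using this
    exact h1.comp tendsto_natCast_atTop_atTop
  have hev : ∀ᶠ n : ℕ in atTop, Real.log (n : ℝ) / (n : ℝ) < 1 / 40000 :=
    hlim.eventually (gt_mem_nhds (by norm_num))
  filter_upwards [hev, eventually_ge_atTop 16] with n hlog hn d hall
  have hn2 : 2 ≤ n := by omega
  have hnR : (16 : ℝ) ≤ n := by exact_mod_cast hn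
  have hnpos : (0 : ℝ) < n := by linarith
  have hlogpos : 0 < Real.log (n : ℝ) := Real.log_pos (by linarith)
  have hlog1 : 1 ≤ Real.log (n : ℝ) := by
    rw [Real.le_log_iff_exp_le hnpos]
    have := Real.exp_one_lt_d9
    linarith
  rw [div_le_iff₀ (by positivity)]
  rcases lt_or_ge d n with hd | hd
  · have h1 := counting_clean hn2 hd hall
    have h2 : ((2 : ℝ)) ^ ((n / 8) * (n / 8)) ≤ (n : ℝ) ^ (n * (24 * d + 26)) := by
      exact_mod_cast h1
    have h3 := Real.log_le_log (by positivity) h2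
    rw [Real.log_pow, Real.log_pow] at h3
    push_cast at h3
    have h4 : (n : ℝ) / 16 ≤ ((n / 8 : ℕ) : ℝ) := by
      have e1 : n ≤ 16 * (n / 8) := by omega
      have e2 : (n : ℝ) ≤ 16 * ((n / 8 : ℕ) : ℝ) := by exact_mod_cast e1
      linarith
    have hlog2 : (0.69 : ℝ) ≤ Real.log 2 := by
      have := Real.log_two_gt_d9
      linarith
    have h5 : ((n : ℝ) / 16) * ((n : ℝ) / 16) * 0.69 ≤
        ((n / 8 : ℕ) : ℝ) * ((n / 8 : ℕ) : ℝ) * Real.log 2 := by
      apply mul_le_mul _ hlog2 (by norm_num) (by positivity)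
      apply mul_le_mul h4 h4 (by positivity) (by positivity)
    have h6 : ((n : ℝ) / 16) * ((n : ℝ) / 16) * 0.69 ≤
        n * (24 * d + 26) * Real.log n := h5.trans h3
    have h7 : (n : ℝ) * 0.69 / 256 ≤ (24 * d + 26) * Real.log n := by
      have e1 : (n : ℝ) * ((n : ℝ) * 0.69 / 256) ≤ n * ((24 * d + 26) * Real.log n) := by
        calc (n : ℝ) * ((n : ℝ) * 0.69 / 256) = ((n : ℝ) / 16) * ((n : ℝ) / 16) * 0.69 := by ring
          _ ≤ n * (24 * d + 26) * Real.log n := h6
          _ = _ := by ring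
      exact le_of_mul_le_mul_left e1 hnpos
    have h8 : Real.log (n : ℝ) < 1 / 40000 * n := by
      rwa [div_lt_iff₀ hnpos] at hlog
    nlinarith
  · have hdR : (n : ℝ) ≤ d := by exact_mod_cast hd
    nlinarith

end Pool.Agent.W_MP_be22fd_co_nlog
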