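import Mathlib

set_option autoImplicit false

namespace Pool.Agent.W_MP_be22fd_co_nlog

open Polynomial

variable {n D : ℕ}

/-- The `i`-th polynomial with coefficient vector `a`. -/
noncomputable def rowPoly (a : Fin n × Fin (D + 1) → ℝ) (i : Fin n) : ℝ[X] :=
  ∑ l : Fin (D + 1), C (a (i, l)) * X ^ (l : ℕ)

/-- The `i`-th generic polynomial. -/
noncomputable def genRow (n D : ℕ) (i : Fin n) : (MvPolynomial (Fin n × Fin (D + 1)) ℝ)[X] :=
  ∑ l : Fin (D + 1), C (MvPolynomial.X (i, l)) * X ^ (l : ℕ)

/-- The resultant of the differences, as a polynomial in the coefficients. -/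
noncomputable def resP (n D : ℕ) (i j k : Fin n) : MvPolynomial (Fin n × Fin (D + 1)) ℝ :=
  resultant (genRow n D i - genRow n D j) (genRow n D k - genRow n D i) D D

/-- The leading coefficient of a difference, as a polynomial in the coefficients. -/
noncomputable def lcP (n D : ℕ) (i j : Fin n) : MvPolynomial (Fin n × Fin (D + 1)) ℝ :=
  MvPolynomial.X (i, Fin.last D) - MvPolynomial.X (j, Fin.last D)

lemma genRow_map (a : Fin n × Fin (D + 1) → ℝ) (i : Fin n) :
    (genRow n D i).map (MvPolynomial.eval a) = rowPoly a i := by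
  unfold genRow rowPoly
  rw [Polynomial.map_sum]
  apply Finset.sum_congr rfl
  intro l _
  simp

lemma eval_resP (a : Fin n × Fin (D + 1) → ℝ) (i j k : Fin n) :
    MvPolynomial.eval a (resP n D i j k) =
      resultant (rowPoly a i - rowPoly a j) (rowPoly a k - rowPoly a i) D D := by
  unfold resP
  rw [← resultant_map_map, Polynomial.map_sub, Polynomial.map_sub, genRow_map, genRow_map,
    genRow_map]

lemma eval_lcP (a : Fin n × Fin (D + 1) → ℝ) (i j : Fin n) :
    MvPolynomial.eval a (lcP n D i j) = a (i, Fin.last D) - a (j, Fin.last D) := by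
  simp [lcP]

lemma coeff_genRow (i : Fin n) (m : ℕ) :
    (genRow n D i).coeff m = if h : m < D + 1 then MvPolynomial.X (i, ⟨m, h⟩) else 0 := by
  unfold genRow
  simp only [finsetSum_coeff, coeff_C_mul, coeff_X_pow]
  split_ifs with h
  · rw [Finset.sum_eq_single (⟨m, h⟩ : Fin (D + 1))]
    · simp
    · intro b _ hb
      rw [if_neg, mul_zero]
      intro hmb
      apply hb
      exact Fin.ext hmb.symm
    · simp
  · apply Finset.sum_eq_zero
    intro b _
    rw [if_neg, mul_zero]
    intro hmb
    have := b.2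
    omega

lemma degreeOf_coeff_sub (i j : Fin n) (m : ℕ) (s : Fin n × Fin (D + 1)) :
    ((genRow n D i - genRow n D j).coeff m).degreeOf s ≤ 1 := by
  rw [coeff_sub, coeff_genRow, coeff_genRow]
  split_ifs with h
  · refine (MvPolynomial.degreeOf_sub_le s _ _).trans ?_
    apply max_le
    · rw [MvPolynomial.degreeOf_X]; split_ifs <;> omega
    · rw [MvPolynomial.degreeOf_X]; split_ifs <;> omega
  · simp

lemma degreeOf_lcP (i j : Fin n) (s : Fin n × Fin (D + 1)) :
    (lcP n D i j).degreeOf s ≤ 1 := by
  unfold lcP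
  refine (MvPolynomial.degreeOf_sub_le s _ _).trans ?_
  apply max_le
  · rw [MvPolynomial.degreeOf_X]; split_ifs <;> omega
  · rw [MvPolynomial.degreeOf_X]; split_ifs <;> omega

lemma degreeOf_det_le {σ : Type*} {m : ℕ} (M : Matrix (Fin m) (Fin m) (MvPolynomial σ ℝ))
    (s : σ) (h : ∀ x y, (M x y).degreeOf s ≤ 1) : M.det.degreeOf s ≤ m := by
  rw [Matrix.det_apply]
  refine (MvPolynomial.degreeOf_sum_le s _ _).trans ?_
  apply Finset.sup_le
  intro τ _
  have h1 : (∏ i, M (τ i) i).degreeOf s ≤ m := by
    refine (MvPolynomial.degreeOf_prod_le s _ _).trans ?_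
    calc ∑ i, (M (τ i) i).degreeOf s ≤ ∑ _i : Fin m, 1 := Finset.sum_le_sum (fun i _ => h _ _)
      _ = m := by simp
  rcases Int.units_eq_one_or (Equiv.Perm.sign τ) with h2 | h2
  · rw [h2, one_smul]; exact h1
  · rw [h2, Units.neg_smul, one_smul, MvPolynomial.degreeOf_neg]; exact h1

lemma degreeOf_resP (i j k : Fin n) (s : Fin n × Fin (D + 1)) :
    (resP n D i j k).degreeOf s ≤ D + D := by
  unfold resP resultant
  apply degreeOf_det_le
  intro x y
  unfold sylvester
  rw [Matrix.of_apply]
  induction y using Fin.addCases with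
  | left y =>
    rw [Fin.addCases_left]
    split_ifs
    · exact degreeOf_coeff_sub _ _ _ _
    · simp
  | right y =>
    rw [Fin.addCases_right]
    split_ifs
    · exact degreeOf_coeff_sub _ _ _ _
    · simp

/-- coefficient vector of a family of polynomials. -/
noncomputable def coefVec (D : ℕ) (p : Fin n → ℝ[X]) : Fin n × Fin (D + 1) → ℝ :=
  fun s => (p s.1).coeff s.2

lemma rowPoly_coefVec (p : Fin n → ℝ[X]) (i : Fin n) (h : (p i).natDegree ≤ D) :
    rowPoly (coefVec D p) i = p i := by
  unfold rowPoly coefVec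
  conv_rhs => rw [(p i).as_sum_range_C_mul_X_pow' (n := D + 1) (by omega)]
  rw [Finset.sum_range]

/-- polynomial in one parameter: nonzero at the direction implies eventually nonzero. -/
lemma eventually_eval_ne {σ : Type*} (F : MvPolynomial σ ℝ) (a w : σ → ℝ)
    (hw : MvPolynomial.eval w F ≠ 0) :
    ∀ᶠ t : ℝ in Filter.atTop, MvPolynomial.eval (fun s => t * a s + w s) F ≠ 0 := by
  set r : ℝ[X] := MvPolynomial.aeval (fun s => C (a s) * X + C (w s)) F with hr
  have he : ∀ t : ℝ, r.eval t = MvPolynomial.eval (fun s => t * a s + w s) F := by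
    intro t
    rw [hr]
    have h1 : (evalRingHom t) (MvPolynomial.aeval (fun s => C (a s) * X + C (w s)) F) =
        MvPolynomial.eval (fun s => t * a s + w s) F := by
      rw [MvPolynomial.aeval_def, MvPolynomial.hom_eval₂]
      have h2 : ((evalRingHom t).comp (algebraMap ℝ ℝ[X])) = RingHom.id ℝ := by
        ext x
        simp
      rw [h2, MvPolynomial.eval₂_id]
      congr 2
      funext s
      simp only [coe_evalRingHom, eval_add, eval_mul, eval_C, eval_X]
      ring
    exact h1
  have hr0 : r ≠ 0 := by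
    intro h0
    apply hw
    have h1 := he 0
    rw [h0, eval_zero] at h1
    simpa using h1.symm
  filter_upwards [Polynomial.eventually_atTop_not_isRoot r hr0] with t ht
  rw [← he t]
  exact ht

end Pool.Agent.W_MP_be22fd_co_nlog
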