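import Mathlib

set_option autoImplicit false

namespace Pool.Agent.W_MP_be22fd_co_nlog

open Polynomial

/-- The real quadratic with the root pair `z, conj z`. -/
noncomputable def quad (z : ℂ) : ℝ[X] := X ^ 2 - C (2 * z.re) * X + C (‖z‖ ^ 2)

lemma quad_map (z : ℂ) : (quad z).map (algebraMap ℝ ℂ) =
    (X - C ((starRingEnd ℂ) z)) * (X - C z) := by
  unfold quad
  calc
    map (algebraMap ℝ ℂ) (X ^ 2 - C (2 * z.re) * X + C (‖z‖ ^ 2))
    _ = X ^ 2 - C (↑(2 * z.re) : ℂ) * X + C (‖z‖ ^ 2 : ℂ) := by simp
    _ = (X - C ((starRingEnd ℂ) z)) * (X - C z) := by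
      rw [← Complex.add_conj, map_add, ← Complex.mul_conj', map_mul]
      ring

lemma quad_natDegree (z : ℂ) : (quad z).natDegree = 2 := by
  unfold quad
  compute_degree!

lemma quad_monic (z : ℂ) : (quad z).Monic := by
  unfold quad
  monicity!

lemma resultant_quad_nonneg (z : ℂ) (g : ℝ[X]) (n : ℕ) (hg : g.natDegree ≤ n) :
    0 ≤ resultant (quad z) g 2 n := by
  have h1 : resultant ((quad z).map (algebraMap ℝ ℂ)) (g.map (algebraMap ℝ ℂ)) 2 n =
      algebraMap ℝ ℂ (resultant (quad z) g 2 n) := resultant_map_map _ _ _ _ _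
  have hg' : (g.map (algebraMap ℝ ℂ)).natDegree ≤ n := natDegree_map_le.trans hg
  have h2 := resultant_mul_left (X - C ((starRingEnd ℂ) z)) (X - C z)
    (g.map (algebraMap ℝ ℂ)) n hg'
  rw [natDegree_X_sub_C, natDegree_X_sub_C, resultant_X_sub_C_left _ _ _ hg',
    resultant_X_sub_C_left _ _ _ hg', ← quad_map] at h2
  have h3 : eval ((starRingEnd ℂ) z) (g.map (algebraMap ℝ ℂ)) =
      (starRingEnd ℂ) (eval z (g.map (algebraMap ℝ ℂ))) := by
    rw [eval_map_algebraMap, eval_map_algebraMap, aeval_conj]
  rw [h3, mul_comm, Complex.mul_conj] at h2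
  have h4 : algebraMap ℝ ℂ (resultant (quad z) g 2 n) =
      ((Complex.normSq (eval z (g.map (algebraMap ℝ ℂ))) : ℝ) : ℂ) := by
    rw [← h1]
    exact h2
  have h5 : resultant (quad z) g 2 n = Complex.normSq (eval z (g.map (algebraMap ℝ ℂ))) := by
    exact Complex.ofReal_injective h4
  rw [h5]
  exact Complex.normSq_nonneg _

/-- If `g` is positive at all real roots of `f ≠ 0` then `lc(f)^n Res(f,g) ≥ 0`. -/
theorem resultant_sign (g : ℝ[X]) (n : ℕ) (hg : g.natDegree ≤ n) :
    ∀ (N : ℕ) (f : ℝ[X]), f.natDegree ≤ N → f ≠ 0 → (∀ r, f.eval r = 0 → 0 < g.eval r) →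
      0 ≤ f.leadingCoeff ^ n * resultant f g f.natDegree n := by
  intro N
  induction N with
  | zero =>
    intro f hf hf0 _
    obtain ⟨c, rfl⟩ := natDegree_eq_zero.mp (Nat.le_zero.mp hf)
    rw [natDegree_C, leadingCoeff_C, resultant_zero_left_deg, coeff_C_zero]
    exact mul_self_nonneg _
  | succ N ih =>
    intro f hf hf0 hpos
    rcases Nat.eq_zero_or_pos f.natDegree with hdeg | hdeg
    · obtain ⟨c, rfl⟩ := natDegree_eq_zero.mp hdeg
      rw [natDegree_C, leadingCoeff_C, resultant_zero_left_deg, coeff_C_zero]
      exact mul_self_nonneg _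
    · obtain ⟨z, hz⟩ : ∃ z : ℂ, aeval z f = 0 := by
        apply IsAlgClosed.exists_aeval_eq_zero
        intro h
        have := natDegree_eq_zero_iff_degree_le_zero.mpr h.le
        omega
      by_cases him : z.im = 0
      · -- real root
        have hr : f.eval z.re = 0 := by
          have hz' : z = ((z.re : ℝ) : ℂ) := by
            apply Complex.ext <;> simp [him]
          rw [hz', ← Complex.coe_algebraMap, aeval_algebraMap_apply] at hz
          simpa using hz
        obtain ⟨h, hh⟩ := dvd_iff_isRoot.mpr hr
        have hh0 : h ≠ 0 := by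
          rintro rfl
          apply hf0
          rw [hh, mul_zero]
        have hdeg2 : f.natDegree = (X - C z.re).natDegree + h.natDegree := by
          rw [hh, natDegree_mul (X_sub_C_ne_zero _) hh0]
        have h1 : resultant f g f.natDegree n = g.eval z.re * resultant h g h.natDegree n := by
          rw [hdeg2, hh, resultant_mul_left _ _ _ _ hg, natDegree_X_sub_C,
            resultant_X_sub_C_left _ _ _ hg]
        have h2 : f.leadingCoeff = h.leadingCoeff := by
          rw [hh, leadingCoeff_mul, leadingCoeff_X_sub_C, one_mul]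
        have h3 : h.natDegree ≤ N := by
          rw [natDegree_X_sub_C] at hdeg2
          omega
        have h4 := ih h h3 hh0 (fun r hr' => hpos r (by rw [hh, eval_mul, hr', mul_zero]))
        rw [h1, h2]
        have h5 := hpos z.re hr
        have h6 : h.leadingCoeff ^ n * (g.eval z.re * resultant h g h.natDegree n) =
            g.eval z.re * (h.leadingCoeff ^ n * resultant h g h.natDegree n) := by ring
        rw [h6]
        exact mul_nonneg h5.le h4
      · obtain ⟨h, hh⟩ := quadratic_dvd_of_aeval_eq_zero_im_ne_zero f hz him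
        change f = quad z * h at hh
        have hh0 : h ≠ 0 := by
          rintro rfl
          apply hf0
          rw [hh, mul_zero]
        have hdeg2 : f.natDegree = (quad z).natDegree + h.natDegree := by
          rw [hh, natDegree_mul (quad_monic z).ne_zero hh0]
        have h1 : resultant f g f.natDegree n =
            resultant (quad z) g 2 n * resultant h g h.natDegree n := by
          rw [hdeg2, hh, resultant_mul_left _ _ _ _ hg, quad_natDegree]
        have h2 : f.leadingCoeff = h.leadingCoeff := by
          rw [hh, leadingCoeff_mul, (quad_monic z).leadingCoeff, one_mul]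
        have h3 : h.natDegree ≤ N := by
          rw [quad_natDegree] at hdeg2
          omega
        have h4 := ih h h3 hh0 (fun r hr' => hpos r (by rw [hh, eval_mul, hr', mul_zero]))
        rw [h1, h2]
        have h6 : h.leadingCoeff ^ n *
            (resultant (quad z) g 2 n * resultant h g h.natDegree n) =
            resultant (quad z) g 2 n * (h.leadingCoeff ^ n * resultant h g h.natDegree n) := by
          ring
        rw [h6]
        exact mul_nonneg (resultant_quad_nonneg z g n hg) h4

end Pool.Agent.W_MP_be22fd_co_nlog
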