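import Pool.Agent.W_MP_be22fd_co_nlog.Defs
import Pool.Agent.W_MP_be22fd_co_nlog.GenPoly
import Pool.Agent.W_MP_be22fd_co_nlog.ResSign

set_option autoImplicit false

namespace Pool.Agent.W_MP_be22fd_co_nlog

open Polynomial Filter

variable {n : ℕ}

/-- The direction of the perturbation. -/
noncomputable def dirPoly (D : ℕ) (c : Fin n → ℝ) (i : Fin n) : ℝ[X] :=
  C (c i) * X ^ D + C (c i ^ 2)

lemma dirPoly_sub (D : ℕ) (c : Fin n → ℝ) (i j : Fin n) :
    dirPoly D c i - dirPoly D c j = C (c i - c j) * (X ^ D + C (c i + c j)) := by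
  unfold dirPoly
  simp only [C_sub, C_add, map_pow]
  ring

lemma dirPoly_natDegree_le (D : ℕ) (c : Fin n → ℝ) (i : Fin n) :
    (dirPoly D c i).natDegree ≤ D := by
  unfold dirPoly
  compute_degree!

lemma resultant_dir_ne_zero {D : ℕ} (c : Fin n → ℝ) (hc : Function.Injective c)
    {i j k : Fin n} (hij : i ≠ j) (hjk : j ≠ k) (hik : i ≠ k) :
    resultant (dirPoly D c i - dirPoly D c j) (dirPoly D c k - dirPoly D c i) D D ≠ 0 := by
  have h1 : c i - c j ≠ 0 := sub_ne_zero.mpr (fun h => hij (hc h))
  have h2 : c k - c i ≠ 0 := sub_ne_zero.mpr (fun h => hik (hc h.symm))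
  have h3 : c j - c k ≠ 0 := sub_ne_zero.mpr (fun h => hjk (hc h))
  rw [dirPoly_sub, dirPoly_sub]
  have hcop : IsCoprime (X ^ D + C (c i + c j) : ℝ[X]) (X ^ D + C (c k + c i)) := by
    refine ⟨C ((c j - c k)⁻¹), -C ((c j - c k)⁻¹), ?_⟩
    have e : C ((c j - c k)⁻¹) * (X ^ D + C (c i + c j)) +
        -C ((c j - c k)⁻¹) * (X ^ D + C (c k + c i)) =
        (C ((c j - c k)⁻¹ * (c j - c k)) : ℝ[X]) := by
      simp only [C_mul, C_sub, C_add]
      ring
    rw [e, inv_mul_cancel₀ h3, C_1]
  have hr := resultant_ne_zero _ _ hcop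
  rw [natDegree_X_pow_add_C, natDegree_X_pow_add_C] at hr
  rw [resultant_C_mul_left, resultant_C_mul_right]
  exact mul_ne_zero (pow_ne_zero _ h1) (mul_ne_zero (pow_ne_zero _ h2) hr)

/-- compactness lemma -/
lemma eventually_pos_of_compact (K : Set ℝ) (hK : IsCompact K) (u v a b : ℝ → ℝ)
    (hu : Continuous u) (hv : Continuous v) (ha : Continuous a) (hb : Continuous b)
    (h : ∀ x ∈ K, u x = 0 → 0 < v x) :
    ∀ᶠ t : ℝ in atTop, ∀ x ∈ K, t * u x + a x = 0 → 0 < t * v x + b x := by
  rcases K.eq_empty_or_nonempty with hKe | hKne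
  · filter_upwards with t x hx
    rw [hKe] at hx
    exact absurd hx (Set.notMem_empty x)
  have hphi : Continuous (fun x => |u x| + max 0 (v x)) := by fun_prop
  obtain ⟨x0, hx0, hmin⟩ := hK.exists_isMinOn hKne hphi.continuousOn
  set mu := |u x0| + max 0 (v x0) with hmu
  have hmupos : 0 < mu := by
    rcases eq_or_ne (u x0) 0 with h0 | h0
    · have h1 := h x0 hx0 h0
      have h2 : v x0 ≤ max 0 (v x0) := le_max_right _ _
      have h3 := abs_nonneg (u x0)
      linarith
    · have h1 : 0 < |u x0| := abs_pos.mpr h0
      have h2 : 0 ≤ max 0 (v x0) := le_max_left _ _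
      linarith
  have hpsi : Continuous (fun x => |a x| + |b x|) := by fun_prop
  obtain ⟨x1, hx1, hmax⟩ := hK.exists_isMaxOn hKne hpsi.continuousOn
  set W := |a x1| + |b x1| with hW
  have hW0 : 0 ≤ W := by positivity
  filter_upwards [eventually_gt_atTop (2 * W / mu), eventually_gt_atTop 0] with t ht ht0 x hx hroot
  by_contra hcon
  push Not at hcon
  have h1 : mu ≤ |u x| + max 0 (v x) := hmin hx
  have h2 : |a x| + |b x| ≤ W := hmax hx
  have ha' := abs_nonneg (a x)
  have hb' := abs_nonneg (b x)
  have h3 : t * |u x| ≤ W := by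
    have e : t * |u x| = |a x| := by
      have e1 : t * u x = -(a x) := by linarith
      calc t * |u x| = |t * u x| := by rw [abs_mul, abs_of_pos ht0]
        _ = |a x| := by rw [e1, abs_neg]
    rw [e]
    linarith
  have h4 : t * max 0 (v x) ≤ W := by
    rcases le_total (v x) 0 with h5 | h5
    · rw [max_eq_left h5, mul_zero]
      exact hW0
    · rw [max_eq_right h5]
      have := neg_abs_le (b x)
      linarith
  have h5 : t * mu ≤ 2 * W := by
    calc t * mu ≤ t * (|u x| + max 0 (v x)) := mul_le_mul_of_nonneg_left h1 ht0.le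
      _ = t * |u x| + t * max 0 (v x) := by ring
      _ ≤ 2 * W := by linarith
  rw [div_lt_iff₀ hmupos] at ht
  linarith

/-- crossing data of an arrangement -/
lemma exists_crossing {f : Fin n → ℝ → ℝ} (hf : IsArrangement f) :
    ∃ (X : Fin n → Fin n → ℝ) (c : Fin n → ℝ) (R : ℝ), Function.Injective c ∧ 1 ≤ R ∧
      (∀ i j, i ≠ j → f i (X i j) = f j (X i j)) ∧
      (∀ i j, i ≠ j → ∀ x, X i j < x → 0 < (c i - c j) * (f i x - f j x)) ∧
      (∀ i j, i ≠ j → ∀ x, x < X i j → (c i - c j) * (f i x - f j x) < 0) ∧
      (∀ i j, i ≠ j → |X i j| < R) ∧ (∀ i j, |c i + c j| < R) := by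
  classical
  have h := fun i j (hij : i ≠ j) => hf.2 i j hij
  choose X0 hX0 hs using h
  let X : Fin n → Fin n → ℝ := fun i j => if hij : i ≠ j then X0 i j hij else 0
  have hX : ∀ i j (hij : i ≠ j), X i j = X0 i j hij := fun i j hij => by
    simp only [X, dif_pos hij]
  set R0 : ℝ := 1 + ∑ i, ∑ j, |X i j| with hR0
  have hR0' : ∀ i j, |X i j| < R0 := by
    intro i j
    have h1 : |X i j| ≤ ∑ j, |X i j| :=
      Finset.single_le_sum (f := fun j => |X i j|) (fun _ _ => abs_nonneg _) (Finset.mem_univ j)
    have h2 : ∑ j, |X i j| ≤ ∑ i, ∑ j, |X i j| :=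
      Finset.single_le_sum (f := fun i => ∑ j, |X i j|)
        (fun _ _ => Finset.sum_nonneg (fun _ _ => abs_nonneg _)) (Finset.mem_univ i)
    linarith
  let c : Fin n → ℝ := fun i => f i R0
  have hsgn : ∀ i j, i ≠ j → ∀ x, X i j < x → 0 < (c i - c j) * (f i x - f j x) := by
    intro i j hij x hx
    have hR : X i j < R0 := lt_of_le_of_lt (le_abs_self _) (hR0' i j)
    rw [hX i j hij] at hx hR
    rcases hs i j hij with ⟨_, h2⟩ | ⟨_, h2⟩
    · have e1 := h2 x hx
      have e2 := h2 R0 hR
      apply mul_pos
      · show 0 < f i R0 - f j R0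
        linarith
      · linarith
    · have e1 := h2 x hx
      have e2 := h2 R0 hR
      apply mul_pos_of_neg_of_neg
      · show f i R0 - f j R0 < 0
        linarith
      · linarith
  have hsgn2 : ∀ i j, i ≠ j → ∀ x, x < X i j → (c i - c j) * (f i x - f j x) < 0 := by
    intro i j hij x hx
    have hR : X i j < R0 := lt_of_le_of_lt (le_abs_self _) (hR0' i j)
    rw [hX i j hij] at hx hR
    rcases hs i j hij with ⟨h1, h2⟩ | ⟨h1, h2⟩
    · have e1 := h1 x hx
      have e2 := h2 R0 hR
      apply mul_neg_of_pos_of_neg
      · show 0 < f i R0 - f j R0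
        linarith
      · linarith
    · have e1 := h1 x hx
      have e2 := h2 R0 hR
      apply mul_neg_of_neg_of_pos
      · show f i R0 - f j R0 < 0
        linarith
      · linarith
  have hcinj : Function.Injective c := by
    intro i j hij
    by_contra hne
    have := hsgn i j hne (X i j + 1) (by linarith)
    rw [hij, sub_self, zero_mul] at this
    exact lt_irrefl _ this
  refine ⟨X, c, R0 + 2 * ∑ i, |c i| + 1, hcinj, ?_, ?_, hsgn, hsgn2, ?_, ?_⟩
  · have h1 : 0 ≤ ∑ i, |c i| := Finset.sum_nonneg (fun _ _ => abs_nonneg _)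
    have h2 : 0 ≤ ∑ i, ∑ j, |X i j| :=
      Finset.sum_nonneg (fun _ _ => Finset.sum_nonneg (fun _ _ => abs_nonneg _))
    linarith
  · intro i j hij
    rw [hX i j hij]
    exact hX0 i j hij
  · intro i j _
    have h1 : 0 ≤ ∑ i, |c i| := Finset.sum_nonneg (fun _ _ => abs_nonneg _)
    have := hR0' i j
    linarith
  · intro i j
    have h1 : ∀ i, |c i| ≤ ∑ i, |c i| := fun i =>
      Finset.single_le_sum (f := fun i => |c i|) (fun _ _ => abs_nonneg _) (Finset.mem_univ i)
    have h2 : 0 ≤ ∑ i, ∑ j, |X i j| :=
      Finset.sum_nonneg (fun _ _ => Finset.sum_nonneg (fun _ _ => abs_nonneg _))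
    have h3 := abs_add_le (c i) (c j)
    have h4 := h1 i
    have h5 := h1 j
    linarith

lemma dirPoly_eval_sub (D : ℕ) (c : Fin n → ℝ) (i j : Fin n) (x : ℝ) :
    (dirPoly D c i).eval x - (dirPoly D c j).eval x = (c i - c j) * (x ^ D + (c i + c j)) := by
  rw [← eval_sub, dirPoly_sub]
  simp

/-- A generic coefficient vector recording the sides of all crossing points. -/
theorem exists_generic {d D : ℕ} (hdD : d < D) (hodd : Odd D) (p : Fin n → ℝ[X])
    (hp : ∀ i, (p i).natDegree ≤ d) (harr : IsArrangement (fun i x => (p i).eval x))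
    (hsimple : IsSimple (fun i x => (p i).eval x)) :
    ∃ u : Fin n × Fin (D + 1) → ℝ,
      (∀ i j, i ≠ j → MvPolynomial.eval u (lcP n D i j) ≠ 0) ∧
      (∀ i j k, i ≠ j → j ≠ k → i ≠ k → MvPolynomial.eval u (resP n D i j k) ≠ 0) ∧
      (∀ i j k, i ≠ j → j ≠ k → i ≠ k → ∀ x, (p i).eval x = (p j).eval x →
        0 < ((p k).eval x - (p i).eval x) *
          (MvPolynomial.eval u (lcP n D i j) * MvPolynomial.eval u (resP n D i j k))) := by
  obtain ⟨X, c, R, hcinj, hR1, hX0, hXpos, hXneg, hXR, hcR⟩ := exists_crossing harr
  set w : Fin n → ℝ[X] := dirPoly D c with hw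
  set a : Fin n × Fin (D + 1) → ℝ := coefVec D p with ha
  set b : Fin n × Fin (D + 1) → ℝ := coefVec D w with hb
  have hp' : ∀ i, (p i).natDegree ≤ D := fun i => (hp i).trans hdD.le
  have hwdeg : ∀ i, (w i).natDegree ≤ D := fun i => dirPoly_natDegree_le D c i
  -- the family
  have hrow : ∀ (t : ℝ) (i : Fin n), rowPoly (fun s => t * a s + b s) i = C t * p i + w i := by
    intro t i
    have h1 : (fun s => t * a s + b s) = coefVec D (fun i => C t * p i + w i) := by
      funext s
      simp [coefVec, ha, hb]
    rw [h1]
    apply rowPoly_coefVec (fun i => C t * p i + w i) i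
    refine (natDegree_add_le _ _).trans (max_le ?_ (hwdeg i))
    exact (natDegree_C_mul_le _ _).trans (hp' i)
  -- resultants eventually nonzero
  have hres : ∀ i j k, i ≠ j → j ≠ k → i ≠ k → ∀ᶠ t : ℝ in atTop,
      MvPolynomial.eval (fun s => t * a s + b s) (resP n D i j k) ≠ 0 := by
    intro i j k hij hjk hik
    apply eventually_eval_ne
    rw [eval_resP]
    have h1 : ∀ i, rowPoly b i = w i := fun i => rowPoly_coefVec w i (hwdeg i)
    rw [h1, h1, h1]
    exact resultant_dir_ne_zero c hcinj hij hjk hik
  -- sign condition at the roots, eventually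
  have hsgn : ∀ i j k, i ≠ j → j ≠ k → i ≠ k → ∀ᶠ t : ℝ in atTop,
      ∀ x, (C t * p i + w i - (C t * p j + w j)).eval x = 0 →
        0 < ((p k).eval (X i j) - (p i).eval (X i j)) *
          (C t * p k + w k - (C t * p i + w i)).eval x := by
    intro i j k hij hjk hik
    set S : ℝ := (p k).eval (X i j) - (p i).eval (X i j) with hS
    have hS0 : S ≠ 0 := by
      intro h0
      apply hsimple i j k hij hjk hik (X i j)
      have h1 := hX0 i j hij
      refine ⟨h1, ?_⟩
      show (p j).eval (X i j) = (p k).eval (X i j)
      linarith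
    have hcomp := eventually_pos_of_compact (Set.Icc (-R) R) isCompact_Icc
      (fun x => (p i).eval x - (p j).eval x) (fun x => S * ((p k).eval x - (p i).eval x))
      (fun x => (w i).eval x - (w j).eval x) (fun x => S * ((w k).eval x - (w i).eval x))
      (by fun_prop) (by fun_prop) (by fun_prop) (by fun_prop) (by
        intro x _ hx
        have hxX : x = X i j := by
          rcases lt_trichotomy x (X i j) with h | h | h
          · have := hXneg i j hij x h
            rw [hx, mul_zero] at this
            exact absurd this (lt_irrefl _)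
          · exact h
          · have := hXpos i j hij x h
            rw [hx, mul_zero] at this
            exact absurd this (lt_irrefl _)
        rw [hxX]
        exact mul_self_pos.mpr hS0)
    filter_upwards [hcomp, eventually_gt_atTop 0] with t ht ht0 x hx
    have he1 : (C t * p i + w i - (C t * p j + w j)).eval x =
        t * ((p i).eval x - (p j).eval x) + ((w i).eval x - (w j).eval x) := by
      simp only [eval_sub, eval_add, eval_mul, eval_C]
      ring
    have he2 : (C t * p k + w k - (C t * p i + w i)).eval x =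
        t * ((p k).eval x - (p i).eval x) + ((w k).eval x - (w i).eval x) := by
      simp only [eval_sub, eval_add, eval_mul, eval_C]
      ring
    rw [he1] at hx
    rw [he2]
    have hcij : c i - c j ≠ 0 := sub_ne_zero.mpr (fun h => hij (hcinj h))
    have hD1 : D ≠ 0 := by omega
    by_cases hxR : x ∈ Set.Icc (-R) R
    · have := ht x hxR hx
      linarith
    · exfalso
      rw [Set.mem_Icc, not_and_or] at hxR
      have hw2 : (w i).eval x - (w j).eval x = (c i - c j) * (x ^ D + (c i + c j)) :=
        dirPoly_eval_sub D c i j x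
      rcases hxR with h | h
      · -- x < -R
        push Not at h
        have hXij := hXR i j hij
        have h1 : x < X i j := by
          have := neg_abs_le (X i j)
          linarith
        have h2 := hXneg i j hij x h1
        have h3 : x ^ D + (c i + c j) < 0 := by
          have h4 : x ^ D = -((-x) ^ D) := by rw [hodd.neg_pow]; ring
          have h5 : -x ≤ (-x) ^ D := le_self_pow₀ (by linarith) hD1
          have h6 := hcR i j
          have h7 := le_abs_self (c i + c j)
          rw [h4]
          linarith
        have h4 : (c i - c j) * ((w i).eval x - (w j).eval x) < 0 := by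
          rw [hw2, ← mul_assoc]
          exact mul_neg_of_pos_of_neg (mul_self_pos.mpr hcij) h3
        have h5 : (c i - c j) * (t * ((p i).eval x - (p j).eval x) +
            ((w i).eval x - (w j).eval x)) < 0 := by
          have h6 : (c i - c j) * (t * ((p i).eval x - (p j).eval x) +
            ((w i).eval x - (w j).eval x)) =
            t * ((c i - c j) * ((p i).eval x - (p j).eval x)) +
              (c i - c j) * ((w i).eval x - (w j).eval x) := by ring
          rw [h6]
          have := mul_neg_of_pos_of_neg ht0 h2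
          linarith
        rw [hx, mul_zero] at h5
        exact lt_irrefl _ h5
      · push Not at h
        have hXij := hXR i j hij
        have h1 : X i j < x := by
          have := le_abs_self (X i j)
          linarith
        have h2 := hXpos i j hij x h1
        have h3 : 0 < x ^ D + (c i + c j) := by
          have h5 : x ≤ x ^ D := le_self_pow₀ (by linarith) hD1
          have h6 := hcR i j
          have h7 := neg_abs_le (c i + c j)
          linarith
        have h4 : 0 < (c i - c j) * ((w i).eval x - (w j).eval x) := by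
          rw [hw2, ← mul_assoc]
          exact mul_pos (mul_self_pos.mpr hcij) h3
        have h5 : 0 < (c i - c j) * (t * ((p i).eval x - (p j).eval x) +
            ((w i).eval x - (w j).eval x)) := by
          have h6 : (c i - c j) * (t * ((p i).eval x - (p j).eval x) +
            ((w i).eval x - (w j).eval x)) =
            t * ((c i - c j) * ((p i).eval x - (p j).eval x)) +
              (c i - c j) * ((w i).eval x - (w j).eval x) := by ring
          rw [h6]
          have := mul_pos ht0 h2
          linarith
        rw [hx, mul_zero] at h5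
        exact lt_irrefl _ h5
  -- choose the parameter
  have hall : ∀ᶠ t : ℝ in atTop, ∀ i j k, i ≠ j → j ≠ k → i ≠ k →
      MvPolynomial.eval (fun s => t * a s + b s) (resP n D i j k) ≠ 0 ∧
      ∀ x, (C t * p i + w i - (C t * p j + w j)).eval x = 0 →
        0 < ((p k).eval (X i j) - (p i).eval (X i j)) *
          (C t * p k + w k - (C t * p i + w i)).eval x := by
    rw [eventually_all]
    intro i
    rw [eventually_all]
    intro j
    rw [eventually_all]
    intro k
    by_cases h : i ≠ j ∧ j ≠ k ∧ i ≠ k
    · filter_upwards [hres i j k h.1 h.2.1 h.2.2, hsgn i j k h.1 h.2.1 h.2.2] with t h1 h2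
      intro _ _ _
      exact ⟨h1, h2⟩
    · filter_upwards with t h1 h2 h3
      exact absurd ⟨h1, h2, h3⟩ h
  obtain ⟨t, ht⟩ := hall.exists
  have hbD : ∀ i, b (i, Fin.last D) = c i := by
    intro i
    have hD1 : D ≠ 0 := by omega
    simp only [hb, coefVec, hw, dirPoly, Fin.val_last, coeff_add, coeff_C_mul, coeff_X_pow,
      if_true, coeff_C, if_neg hD1]
    ring
  have haD : ∀ i, a (i, Fin.last D) = 0 := by
    intro i
    simp only [ha, coefVec, Fin.val_last]
    exact coeff_eq_zero_of_natDegree_lt (lt_of_le_of_lt (hp i) hdD)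
  have hlc : ∀ i j, MvPolynomial.eval (fun s => t * a s + b s) (lcP n D i j) = c i - c j := by
    intro i j
    rw [eval_lcP, hbD, hbD, haD, haD]
    ring
  refine ⟨fun s => t * a s + b s, ?_, ?_, ?_⟩
  · intro i j hij
    rw [hlc]
    exact sub_ne_zero.mpr (fun h => hij (hcinj h))
  · intro i j k hij hjk hik
    exact (ht i j k hij hjk hik).1
  · intro i j k hij hjk hik x hx
    obtain ⟨hne, hroots⟩ := ht i j k hij hjk hik
    have hxX : x = X i j := by
      rcases lt_trichotomy x (X i j) with h | h | h
      · have := hXneg i j hij x h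
        rw [hx, sub_self, mul_zero] at this
        exact absurd this (lt_irrefl _)
      · exact h
      · have := hXpos i j hij x h
        rw [hx, sub_self, mul_zero] at this
        exact absurd this (lt_irrefl _)
    rw [hxX, hlc]
    have hcij : c i - c j ≠ 0 := sub_ne_zero.mpr (fun h => hij (hcinj h))
    rw [eval_resP, hrow, hrow, hrow] at hne
    rw [eval_resP, hrow, hrow, hrow]
    set S : ℝ := (p k).eval (X i j) - (p i).eval (X i j) with hS
    set F : ℝ[X] := C t * p i + w i - (C t * p j + w j) with hF
    set G : ℝ[X] := C t * p k + w k - (C t * p i + w i) with hG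
    have hGdeg : G.natDegree ≤ D := by
      rw [hG]
      refine (natDegree_sub_le _ _).trans (max_le ?_ ?_)
      · refine (natDegree_add_le _ _).trans (max_le ?_ (hwdeg k))
        exact (natDegree_C_mul_le _ _).trans (hp' k)
      · refine (natDegree_add_le _ _).trans (max_le ?_ (hwdeg i))
        exact (natDegree_C_mul_le _ _).trans (hp' i)
    have hFcoeff : F.coeff D = c i - c j := by
      have h1 : ∀ i, (w i).coeff D = c i := by
        intro i
        have := hbD i
        simpa [hb, coefVec] using this
      have h2 : ∀ i, (p i).coeff D = 0 := fun i =>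
        coeff_eq_zero_of_natDegree_lt (lt_of_le_of_lt (hp i) hdD)
      rw [hF]
      simp only [coeff_sub, coeff_add, coeff_C_mul, h1, h2]
      ring
    have hFdeg : F.natDegree = D := by
      apply le_antisymm
      · rw [hF]
        refine (natDegree_sub_le _ _).trans (max_le ?_ ?_)
        · refine (natDegree_add_le _ _).trans (max_le ?_ (hwdeg i))
          exact (natDegree_C_mul_le _ _).trans (hp' i)
        · refine (natDegree_add_le _ _).trans (max_le ?_ (hwdeg j))
          exact (natDegree_C_mul_le _ _).trans (hp' j)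
      · apply le_natDegree_of_ne_zero
        rw [hFcoeff]
        exact hcij
    have hF0 : F ≠ 0 := by
      intro h0
      rw [h0, coeff_zero] at hFcoeff
      exact hcij hFcoeff.symm
    have hFlc : F.leadingCoeff = c i - c j := by
      rw [leadingCoeff, hFdeg, hFcoeff]
    have hlcpow : ∀ r : ℝ, 0 < (c i - c j) ^ D * r → 0 < (c i - c j) * r := by
      intro r hr
      obtain ⟨m, hm⟩ := hodd
      have h1 : (c i - c j) ^ D * r = ((c i - c j) ^ m) ^ 2 * ((c i - c j) * r) := by
        rw [hm]; ring
      rw [h1] at hr
      by_contra hcon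
      push Not at hcon
      exact absurd hr (not_lt.mpr (mul_nonpos_of_nonneg_of_nonpos (sq_nonneg _) hcon))
    have hpowne : (c i - c j) ^ D ≠ 0 := pow_ne_zero _ hcij
    have hS0 : S ≠ 0 := by
      intro h0
      apply hsimple i j k hij hjk hik (X i j)
      have h1 := hX0 i j hij
      refine ⟨h1, ?_⟩
      show (p j).eval (X i j) = (p k).eval (X i j)
      linarith
    rcases lt_or_gt_of_ne hS0 with hSneg | hSpos
    · -- S < 0
      have hneg : ∀ r, F.eval r = 0 → 0 < (-G).eval r := by
        intro r hr
        have h1 := hroots r hr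
        rw [eval_neg]
        have h2 := (pos_iff_neg_of_mul_neg (a := S) (b := -(G.eval r)) (by linarith))
        nlinarith
      have h1 := resultant_sign (-G) D (by rw [natDegree_neg]; exact hGdeg) D F hFdeg.le hF0 hneg
      rw [hFdeg, hFlc] at h1
      have h2 : resultant F (-G) D D = (-1) ^ D * resultant F G D D := by
        have : (-G) = C (-1) * G := by simp
        rw [this, resultant_C_mul_right]
      rw [h2, hodd.neg_one_pow] at h1
      have h3 : 0 < (c i - c j) ^ D * (-resultant F G D D) := by
        apply lt_of_le_of_ne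
        · linarith
        · intro h
          have := mul_ne_zero hpowne (neg_ne_zero.mpr hne)
          exact this h.symm
      have h4 := hlcpow _ h3
      have h5 : S * ((c i - c j) * resultant F G D D) =
          (-S) * ((c i - c j) * (-resultant F G D D)) := by ring
      rw [h5]
      exact mul_pos (by linarith) h4
    · have hpos : ∀ r, F.eval r = 0 → 0 < G.eval r := by
        intro r hr
        have h1 := hroots r hr
        exact (pos_iff_pos_of_mul_pos h1).mp hSpos
      have h1 := resultant_sign G D hGdeg D F hFdeg.le hF0 hpos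
      rw [hFdeg, hFlc] at h1
      have h3 : 0 < (c i - c j) ^ D * (resultant F G D D) := by
        apply lt_of_le_of_ne h1
        intro h
        exact (mul_ne_zero hpowne hne) h.symm
      exact mul_pos hSpos (hlcpow _ h3)

end Pool.Agent.W_MP_be22fd_co_nlog
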