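import Pool.Agent.W_MP_be22fd_co_nlog.Crit

set_option autoImplicit false

namespace Pool.Agent.W_MP_be22fd_co_nlog

open MvPolynomial

variable {σ : Type*} [Fintype σ] [DecidableEq σ]

/-- The polynomials used in the dimension count. -/
noncomputable def relPoly (P l : MvPolynomial σ ℝ) (A : ℕ) (ab : (σ → Fin A) × Fin A) :
    MvPolynomial σ ℝ :=
  P ^ (Fintype.card σ * (A - 1) - ∑ i, (ab.1 i : ℕ)) * (∏ i, (pderiv i P) ^ (ab.1 i : ℕ)) *
    l ^ (ab.2 : ℕ)

lemma sum_le_card_mul (A : ℕ) (a : σ → Fin A) :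
    ∑ i, (a i : ℕ) ≤ Fintype.card σ * (A - 1) := by
  calc ∑ i, (a i : ℕ) ≤ ∑ _i : σ, (A - 1) :=
        Finset.sum_le_sum (fun i _ => by have := (a i).2; omega)
    _ = Fintype.card σ * (A - 1) := by simp

lemma degreeOf_relPoly (P l : MvPolynomial σ ℝ) (D A : ℕ) (hP : ∀ k, P.degreeOf k ≤ D)
    (hl : ∀ k, l.degreeOf k ≤ 1) (ab : (σ → Fin A) × Fin A) (k : σ) :
    (relPoly P l A ab).degreeOf k ≤ Fintype.card σ * (A - 1) * D + (A - 1) := by
  have h1 := sum_le_card_mul A ab.1
  have h2 : (P ^ (Fintype.card σ * (A - 1) - ∑ i, (ab.1 i : ℕ))).degreeOf k ≤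
      (Fintype.card σ * (A - 1) - ∑ i, (ab.1 i : ℕ)) * D :=
    (degreeOf_pow_le k P _).trans (Nat.mul_le_mul_left _ (hP k))
  have h3 : (∏ i, (pderiv i P) ^ (ab.1 i : ℕ)).degreeOf k ≤ (∑ i, (ab.1 i : ℕ)) * D := by
    refine (degreeOf_prod_le k _ _).trans ?_
    rw [Finset.sum_mul]
    apply Finset.sum_le_sum
    intro i _
    exact (degreeOf_pow_le k _ _).trans
      (Nat.mul_le_mul_left _ ((degreeOf_pderiv_le P i k).trans (hP k)))
  have h4 : (l ^ (ab.2 : ℕ)).degreeOf k ≤ A - 1 := by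
    refine (degreeOf_pow_le k l _).trans ?_
    have := ab.2.2
    have h5 := hl k
    calc (ab.2 : ℕ) * l.degreeOf k ≤ (ab.2 : ℕ) * 1 := Nat.mul_le_mul_left _ h5
      _ ≤ A - 1 := by omega
  unfold relPoly
  refine (degreeOf_mul_le k _ _).trans ?_
  refine (Nat.add_le_add_right (degreeOf_mul_le k _ _) _).trans ?_
  have h5 : (Fintype.card σ * (A - 1) - ∑ i, (ab.1 i : ℕ)) * D + (∑ i, (ab.1 i : ℕ)) * D =
      Fintype.card σ * (A - 1) * D := by
    rw [← Nat.add_mul, Nat.sub_add_cancel h1]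
  omega

/-- Dimension count: an algebraic relation between the logarithmic gradient of `P` and `l`. -/
lemma exists_relation (P l : MvPolynomial σ ℝ) (D A : ℕ) (hD : 1 ≤ D)
    (hcard : 1 ≤ Fintype.card σ) (hP : ∀ k, P.degreeOf k ≤ D) (hl : ∀ k, l.degreeOf k ≤ 1)
    (hA : (2 * D * Fintype.card σ) ^ Fintype.card σ < A) :
    ∃ c : (σ → Fin A) × Fin A → ℝ, c ≠ 0 ∧
      ∀ x v : σ → ℝ, eval x P ≠ 0 → (∀ i, eval x (pderiv i P) = v i * eval x P) →
        ∑ ab, c ab * ((∏ i, (v i) ^ (ab.1 i : ℕ)) * (eval x l) ^ (ab.2 : ℕ)) = 0 := by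
  set M := Fintype.card σ with hM
  set E : ℕ := M * (A - 1) * D + A with hE
  have hA1 : 1 ≤ A := by omega
  -- linear map
  let L : ((σ → Fin A) × Fin A → ℝ) →ₗ[ℝ] ((σ → Fin E) → ℝ) :=
    { toFun := fun c z => ∑ ab, c ab * eval (fun i => ((z i : ℕ) : ℝ)) (relPoly P l A ab)
      map_add' := by
        intro c c'
        funext z
        simp [add_mul, Finset.sum_add_distrib]
      map_smul' := by
        intro t c
        funext z
        simp [Finset.mul_sum, mul_assoc] }
  have hfin : Module.finrank ℝ ((σ → Fin E) → ℝ) <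
      Module.finrank ℝ ((σ → Fin A) × Fin A → ℝ) := by
    rw [Module.finrank_fintype_fun_eq_card, Module.finrank_fintype_fun_eq_card]
    simp only [Fintype.card_prod, Fintype.card_fun, Fintype.card_fin]
    rw [← hM]
    have h1 : E ≤ (2 * D * M) * A := by
      rw [hE]
      have h2 : M * (A - 1) * D + M * D = M * A * D := by
        obtain ⟨B, rfl⟩ : ∃ B, A = B + 1 := ⟨A - 1, by omega⟩
        simp only [Nat.add_sub_cancel]
        ring
      have h3 : A ≤ M * A * D := by
        calc A = 1 * A * 1 := by ring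
          _ ≤ M * A * D := Nat.mul_le_mul (Nat.mul_le_mul_right _ hcard) hD
      have h4 : 2 * D * M * A = M * A * D + M * A * D := by ring
      omega
    calc E ^ M ≤ ((2 * D * M) * A) ^ M := Nat.pow_le_pow_left h1 M
      _ = (2 * D * M) ^ M * A ^ M := by rw [mul_pow]
      _ < A * A ^ M := Nat.mul_lt_mul_of_pos_right hA (by positivity)
      _ = A ^ M * A := by ring
  have hker := LinearMap.ker_ne_bot_of_finrank_lt (f := L) hfin
  obtain ⟨c, hc, hc0⟩ := (Submodule.ne_bot_iff _).mp hker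
  refine ⟨c, hc0, ?_⟩
  rw [LinearMap.mem_ker] at hc
  -- the polynomial vanishes
  have hzero : ∑ ab, C (c ab) * relPoly P l A ab = 0 := by
    apply eq_zero_of_eval_zero_at_prod_finset _
      (fun _ => (Finset.range E).image (fun m : ℕ => (m : ℝ)))
    · intro k
      rw [Finset.card_image_of_injective _ Nat.cast_injective, Finset.card_range]
      have h1 : (∑ ab, C (c ab) * relPoly P l A ab).degreeOf k ≤ M * (A - 1) * D + (A - 1) := by
        refine (degreeOf_sum_le k _ _).trans ?_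
        apply Finset.sup_le
        intro ab _
        refine (degreeOf_mul_le k _ _).trans ?_
        rw [degreeOf_C, zero_add]
        exact degreeOf_relPoly P l D A hP hl ab k
      omega
    · intro x hx
      have hx' : ∀ i, ∃ m : Fin E, ((m : ℕ) : ℝ) = x i := by
        intro i
        obtain ⟨m, hm, hmx⟩ := Finset.mem_image.mp (hx i)
        exact ⟨⟨m, Finset.mem_range.mp hm⟩, hmx⟩
      choose z hz using hx'
      have hx2 : x = fun i => ((z i : ℕ) : ℝ) := by
        funext i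
        exact (hz i).symm
      have h1 : L c z = 0 := by rw [hc]; rfl
      have h2 : L c z = ∑ ab, c ab * eval (fun i => ((z i : ℕ) : ℝ)) (relPoly P l A ab) := rfl
      rw [map_sum]
      simp only [map_mul, eval_C]
      rw [hx2, ← h2, h1]
  intro x v hx hv
  have h1 : eval x (∑ ab, C (c ab) * relPoly P l A ab) = 0 := by rw [hzero]; simp
  rw [map_sum] at h1
  have h2 : ∀ ab : (σ → Fin A) × Fin A, eval x (C (c ab) * relPoly P l A ab) =
      (eval x P) ^ (M * (A - 1)) *
        (c ab * ((∏ i, (v i) ^ (ab.1 i : ℕ)) * (eval x l) ^ (ab.2 : ℕ))) := by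
    intro ab
    have h3 := sum_le_card_mul A ab.1
    unfold relPoly
    simp only [map_mul, eval_C, map_pow, map_prod]
    have h4 : ∏ i, (eval x (pderiv i P)) ^ (ab.1 i : ℕ) =
        (∏ i, (v i) ^ (ab.1 i : ℕ)) * (eval x P) ^ (∑ i, (ab.1 i : ℕ)) := by
      rw [← Finset.prod_pow_eq_pow_sum, ← Finset.prod_mul_distrib]
      apply Finset.prod_congr rfl
      intro i _
      rw [hv i, mul_pow]
    rw [h4]
    have h5 : (eval x P) ^ (M * (A - 1)) =
        (eval x P) ^ (M * (A - 1) - ∑ i, (ab.1 i : ℕ)) * (eval x P) ^ (∑ i, (ab.1 i : ℕ)) := by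
      rw [← pow_add, Nat.sub_add_cancel h3]
    rw [h5]
    ring
  rw [Finset.sum_congr rfl (fun ab _ => h2 ab), ← Finset.mul_sum] at h1
  rcases mul_eq_zero.mp h1 with h6 | h6
  · exact absurd h6 (pow_ne_zero _ hx)
  · exact h6

end Pool.Agent.W_MP_be22fd_co_nlog
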