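import Pool.Agent.W_MP_be22fd_co_nlog.Perturb

set_option autoImplicit false

namespace Pool.Agent.W_MP_be22fd_co_nlog

open Polynomial

/-- The region above a graph is preconnected. -/
lemma isPreconnected_above {f : ℝ → ℝ} (hf : Continuous f) :
    IsPreconnected {P : ℝ × ℝ | f P.1 < P.2} := by
  have h1 : {P : ℝ × ℝ | f P.1 < P.2} =
      (fun q : ℝ × ℝ => (q.1, f q.1 + q.2)) '' (Set.univ ×ˢ Set.Ioi (0 : ℝ)) := by
    ext P
    constructor
    · intro hP
      refine ⟨(P.1, P.2 - f P.1), ⟨Set.mem_univ _, ?_⟩, ?_⟩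
      · show 0 < P.2 - f P.1
        have : f P.1 < P.2 := hP
        linarith
      · ext <;> simp
    · rintro ⟨q, ⟨_, hq⟩, rfl⟩
      show f q.1 < f q.1 + q.2
      have : (0 : ℝ) < q.2 := hq
      linarith
  rw [h1]
  apply IsPreconnected.image
  · exact isPreconnected_univ.prod isPreconnected_Ioi
  · fun_prop

/-- The region below a graph is preconnected. -/
lemma isPreconnected_below {f : ℝ → ℝ} (hf : Continuous f) :
    IsPreconnected {P : ℝ × ℝ | P.2 < f P.1} := by
  have h1 : {P : ℝ × ℝ | P.2 < f P.1} =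
      (fun q : ℝ × ℝ => (q.1, f q.1 - q.2)) '' (Set.univ ×ˢ Set.Ioi (0 : ℝ)) := by
    ext P
    constructor
    · intro hP
      refine ⟨(P.1, f P.1 - P.2), ⟨Set.mem_univ _, ?_⟩, ?_⟩
      · show 0 < f P.1 - P.2
        have : P.2 < f P.1 := hP
        linarith
      · ext <;> simp
    · rintro ⟨q, ⟨_, hq⟩, rfl⟩
      show f q.1 - q.2 < f q.1
      have : (0 : ℝ) < q.2 := hq
      linarith
  rw [h1]
  apply IsPreconnected.image
  · exact isPreconnected_univ.prod isPreconnected_Ioi
  · fun_prop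

lemma const_sign {U : Set (ℝ × ℝ)} (hU : IsPreconnected U) {phi : ℝ × ℝ → ℝ}
    (hphi : Continuous phi) (hne : ∀ P ∈ U, phi P ≠ 0) :
    (∀ P ∈ U, 0 < phi P) ∨ (∀ P ∈ U, phi P < 0) := by
  by_contra hcon
  rw [not_or] at hcon
  obtain ⟨h1, h2⟩ := hcon
  push Not at h1 h2
  obtain ⟨P, hP, hP'⟩ := h1
  obtain ⟨Q, hQ, hQ'⟩ := h2
  have hmem : (0 : ℝ) ∈ Set.Icc (phi P) (phi Q) := ⟨hP', hQ'⟩
  obtain ⟨Z, hZ, hZ'⟩ := hU.intermediate_value hP hQ hphi.continuousOn hmem
  exact hne Z hZ hZ'

/-- A homeomorphism of the plane mapping graph to graph respects or exchanges the two sides. -/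
lemma side_invariance {f g : ℝ → ℝ} (hf : Continuous f) (hg : Continuous g)
    (h : (ℝ × ℝ) ≃ₜ (ℝ × ℝ)) (hfg : h '' graph f = graph g) :
    ∃ E : ℝ, (E = 1 ∨ E = -1) ∧ ∀ P : ℝ × ℝ, P.2 ≠ f P.1 →
      0 < E * ((P.2 - f P.1) * ((h P).2 - g (h P).1)) := by
  set phi : ℝ × ℝ → ℝ := fun P => (h P).2 - g (h P).1 with hphi
  have hcont : Continuous phi := by
    have := h.continuous
    fun_prop
  have hne : ∀ P : ℝ × ℝ, P.2 ≠ f P.1 → phi P ≠ 0 := by
    intro P hP h0
    have h1 : h P ∈ graph g := by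
      show (h P).2 = g (h P).1
      simp only [hphi] at h0
      linarith
    rw [← hfg] at h1
    obtain ⟨Q, hQ, hQP⟩ := h1
    have h2 : Q = P := h.injective hQP
    rw [h2] at hQ
    exact hP hQ
  have hbelow : ∃ P : ℝ × ℝ, P.2 ≠ f P.1 ∧ phi P < 0 := by
    set Q : ℝ × ℝ := (0, g 0 - 1) with hQ
    refine ⟨h.symm Q, ?_, ?_⟩
    · intro hcon
      have h1 : h (h.symm Q) ∈ h '' graph f := ⟨h.symm Q, hcon, rfl⟩
      rw [hfg, h.apply_symm_apply] at h1
      have h2 : Q.2 = g Q.1 := h1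
      rw [hQ] at h2
      simp at h2
    · simp [hphi, hQ]
  have habove : ∃ P : ℝ × ℝ, P.2 ≠ f P.1 ∧ 0 < phi P := by
    set Q : ℝ × ℝ := (0, g 0 + 1) with hQ
    refine ⟨h.symm Q, ?_, ?_⟩
    · intro hcon
      have h1 : h (h.symm Q) ∈ h '' graph f := ⟨h.symm Q, hcon, rfl⟩
      rw [hfg, h.apply_symm_apply] at h1
      have h2 : Q.2 = g Q.1 := h1
      rw [hQ] at h2
      simp at h2
    · simp [hphi, hQ]
  have hU := const_sign (isPreconnected_above hf) hcont
    (fun P hP => hne P (ne_of_gt hP))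
  have hD := const_sign (isPreconnected_below hf) hcont
    (fun P hP => hne P (ne_of_lt hP))
  rcases hU with hU | hU <;> rcases hD with hD | hD
  · exfalso
    obtain ⟨P, hP, hP'⟩ := hbelow
    rcases lt_or_gt_of_ne hP with h1 | h1
    · exact absurd (hD P h1) (not_lt.mpr hP'.le)
    · exact absurd (hU P h1) (not_lt.mpr hP'.le)
  · refine ⟨1, Or.inl rfl, ?_⟩
    intro P hP
    rw [one_mul]
    rcases lt_or_gt_of_ne hP with h1 | h1
    · exact mul_pos_of_neg_of_neg (by linarith) (hD P h1)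
    · exact mul_pos (by linarith) (hU P h1)
  · refine ⟨-1, Or.inr rfl, ?_⟩
    intro P hP
    rcases lt_or_gt_of_ne hP with h1 | h1
    · have h2 : (P.2 - f P.1) * phi P < 0 := mul_neg_of_neg_of_pos (by linarith) (hD P h1)
      simp only [hphi] at h2
      linarith
    · have h2 : (P.2 - f P.1) * phi P < 0 := mul_neg_of_pos_of_neg (by linarith) (hU P h1)
      simp only [hphi] at h2
      linarith
  · exfalso
    obtain ⟨P, hP, hP'⟩ := habove
    rcases lt_or_gt_of_ne hP with h1 | h1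
    · exact absurd (hD P h1) (not_lt.mpr hP'.le)
    · exact absurd (hU P h1) (not_lt.mpr hP'.le)

variable {n : ℕ}

lemma IsSimple.of_isomorphic {f g : Fin n → ℝ → ℝ} (hf : IsSimple f) (h : Isomorphic f g) :
    IsSimple g := by
  obtain ⟨h, s, hs⟩ := h
  intro i j k hij hjk hik x ⟨h1, h2⟩
  have hback : ∀ i, (x, g i x) ∈ graph (g i) := fun i => rfl
  have hmem : ∀ l, (h.symm (x, g i x)) ∈ graph (f (s.symm l)) ↔ (x, g i x) ∈ graph (g l) := by
    intro l
    have e : h '' graph (f (s.symm l)) = graph (g l) := by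
      rw [hs (s.symm l), Equiv.apply_symm_apply]
    rw [← e]
    constructor
    · intro hm
      exact ⟨_, hm, h.apply_symm_apply _⟩
    · rintro ⟨Q, hQ, hQe⟩
      rw [← hQe, h.symm_apply_apply]
      exact hQ
  have m1 := (hmem i).mpr (hback i)
  have m2 := (hmem j).mpr (show g i x = g j x from h1)
  have m3 := (hmem k).mpr (show g i x = g k x from h1.trans h2)
  set Z := h.symm (x, g i x) with hZ
  apply hf (s.symm i) (s.symm j) (s.symm k) (fun h => hij (s.symm.injective h))
    (fun h => hjk (s.symm.injective h)) (fun h => hik (s.symm.injective h)) Z.1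
  exact ⟨(show Z.2 = _ from m1).symm.trans m2, (show Z.2 = _ from m2).symm.trans m3⟩

/-- Every stretchable simple arrangement has a code. -/
theorem exists_code {d D : ℕ} (hdD : d < D) (hodd : Odd D) {f : Fin n → ℝ → ℝ}
    (harr : IsArrangement f) (hsimple : IsSimple f) (hst : IsStretchable d f) :
    ∃ (s : Equiv.Perm (Fin n)) (e : Fin n → Bool) (u : Fin n × Fin (D + 1) → ℝ),
      (∀ i j, i ≠ j → MvPolynomial.eval u (lcP n D i j) ≠ 0) ∧
      (∀ i j k, i ≠ j → j ≠ k → i ≠ k → MvPolynomial.eval u (resP n D i j k) ≠ 0) ∧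
      (∀ i j k, i ≠ j → j ≠ k → i ≠ k → ∀ x, f i x = f j x →
        0 < (if e k then (1 : ℝ) else -1) * ((f k x - f i x) *
          (MvPolynomial.eval u (lcP n D (s i) (s j)) *
            MvPolynomial.eval u (resP n D (s i) (s j) (s k))))) := by
  obtain ⟨p, hp, hparr, h, s, hs⟩ := hst
  have hpsimple : IsSimple (fun i x => (p i).eval x) :=
    hsimple.of_isomorphic ⟨h, s, hs⟩
  obtain ⟨u, hu1, hu2, hu3⟩ := exists_generic hdD hodd p hp hparr hpsimple
  have hside := fun k : Fin n => side_invariance (harr.1 k) (hparr.1 (s k)) h (hs k)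
  choose E hE1 hE2 using hside
  classical
  refine ⟨s, fun k => decide (E k = 1), u, hu1, hu2, ?_⟩
  intro i j k hij hjk hik x hx
  have hEk : (if decide (E k = 1) = true then (1 : ℝ) else -1) = E k := by
    rcases hE1 k with h1 | h1
    · simp [h1]
    · have h2 : decide (E k = 1) = false := by
        rw [h1]
        exact decide_eq_false (by norm_num)
      rw [h2, h1]
      simp
  simp only
  rw [hEk]
  have hsij : s i ≠ s j := fun h => hij (s.injective h)
  have hsjk : s j ≠ s k := fun h => hjk (s.injective h)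
  have hsik : s i ≠ s k := fun h => hik (s.injective h)
  -- the crossing point and its image
  set P : ℝ × ℝ := (x, f i x) with hP
  have m1 : h P ∈ graph (fun x => (p (s i)).eval x) := by
    rw [← hs i]
    exact ⟨P, rfl, rfl⟩
  have m2 : h P ∈ graph (fun x => (p (s j)).eval x) := by
    rw [← hs j]
    exact ⟨P, (show f i x = f j x from hx), rfl⟩
  have e1 : (h P).2 = (p (s i)).eval (h P).1 := m1
  have e2 : (h P).2 = (p (s j)).eval (h P).1 := m2
  have h3 := hu3 (s i) (s j) (s k) hsij hsjk hsik (h P).1 (e1.symm.trans e2)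
  have hPk : P.2 ≠ f k P.1 := by
    intro hcon
    have hcon' : f i x = f k x := hcon
    exact hsimple i j k hij hjk hik x ⟨hx, hx.symm.trans hcon'⟩
  have h4 := hE2 k P hPk
  have e3 : P.2 - f k P.1 = f i x - f k x := rfl
  rw [e3, e1] at h4
  set a := f k x - f i x with ha
  set b := (p (s k)).eval (h P).1 - (p (s i)).eval (h P).1 with hb
  set L := MvPolynomial.eval u (lcP n D (s i) (s j)) *
    MvPolynomial.eval u (resP n D (s i) (s j) (s k)) with hL
  have h5 : 0 < E k * (a * b) := by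
    have : E k * (a * b) = E k * ((f i x - f k x) *
      ((p (s i)).eval (h P).1 - (p (s k)).eval (h P).1)) := by
      rw [ha, hb]; ring
    rw [this]
    exact h4
  have h6 : 0 < (E k * (a * b)) * (b * L) := mul_pos h5 h3
  have h7 : (E k * (a * b)) * (b * L) = b ^ 2 * (E k * (a * L)) := by ring
  rw [h7] at h6
  by_contra hcon
  push Not at hcon
  exact absurd h6 (not_lt.mpr (mul_nonpos_of_nonneg_of_nonpos (sq_nonneg _) hcon))

end Pool.Agent.W_MP_be22fd_co_nlog
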